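import Mathlib
import Pool.Agent.H27Mahler.OneVar

/-!
# The function `gg β = ∫ log |2 cos 2πs - β| ds`
-/

open MeasureTheory Polynomial Pool.Agent.H27Mahler

namespace Pool.Agent.HMB

/-- the value `z + z⁻¹` at a point of the circle -/
noncomputable def cs (τ : UnitAddCircle) : ℂ :=
  (AddCircle.toCircle τ : ℂ) + (AddCircle.toCircle τ : ℂ)⁻¹

theorem continuous_cs : Continuous cs := by
  have h := AddCircle.continuous_toCircle (T := (1:ℝ))
  have h0 : ∀ τ : UnitAddCircle, (AddCircle.toCircle τ : ℂ) ≠ 0 := fun τ => Circle.coe_ne_zero _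
  unfold cs
  exact (by fun_prop : Continuous fun τ : UnitAddCircle => (AddCircle.toCircle τ : ℂ)).add
    ((by fun_prop : Continuous fun τ : UnitAddCircle => (AddCircle.toCircle τ : ℂ)).inv₀ h0)

theorem cs_real (τ : UnitAddCircle) : ((cs τ).re : ℂ) = cs τ := by
  have h1 : (AddCircle.toCircle τ : ℂ)⁻¹ = (starRingEnd ℂ) (AddCircle.toCircle τ : ℂ) := by
    rw [← Circle.coe_inv, Circle.coe_inv_eq_conj]
  have h2 : (starRingEnd ℂ) (cs τ) = cs τ := by
    rw [cs, h1, map_add, Complex.conj_conj, add_comm]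
  exact Complex.conj_eq_iff_re.mp h2

theorem abs_cs_le (τ : UnitAddCircle) : |(cs τ).re| ≤ 2 := by
  refine (Complex.abs_re_le_norm _).trans ?_
  refine (norm_add_le _ _).trans ?_
  rw [norm_inv, Circle.norm_coe]
  norm_num

/-- `gg β` is the logarithm of the larger root of `z² - βz + 1` -/
noncomputable def gg (β : ℝ) : ℝ := Real.arcosh (max 1 (|β| / 2))

theorem gg_nonneg (β : ℝ) : 0 ≤ gg β := Real.arcosh_nonneg (le_max_left _ _)

theorem gg_neg (β : ℝ) : gg (-β) = gg β := by rw [gg, gg, abs_neg]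

theorem cosh_gg (β : ℝ) : Real.cosh (gg β) = max 1 (|β| / 2) := Real.cosh_arcosh (le_max_left _ _)

theorem gg_eq_zero {β : ℝ} (h : |β| ≤ 2) : gg β = 0 := by
  rw [gg, max_eq_left (by linarith), Real.arcosh_zero]

theorem gg_cosh {y : ℝ} (hy : 0 ≤ y) : gg (2 * Real.cosh y) = y := by
  have h1 : 1 ≤ Real.cosh y := Real.one_le_cosh y
  rw [gg, abs_of_nonneg (by linarith), mul_div_cancel_left₀ _ two_ne_zero, max_eq_right h1,
    Real.arcosh_cosh hy]

theorem lt_gg_iff {y β : ℝ} (hy : 0 ≤ y) : y < gg β ↔ 2 * Real.cosh y < |β| := by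
  have h0 : y < gg β ↔ Real.cosh y < Real.cosh (gg β) := by
    rw [Real.cosh_lt_cosh, abs_of_nonneg hy, abs_of_nonneg (gg_nonneg β)]
  rw [h0, cosh_gg]
  have h1 : 1 ≤ Real.cosh y := Real.one_le_cosh y
  constructor
  · intro h
    rcases lt_max_iff.mp h with h2 | h2
    · linarith
    · linarith
  · intro h
    exact lt_max_iff.mpr (Or.inr (by linarith))

theorem gg_pos_iff {β : ℝ} : 0 < gg β ↔ 2 < |β| := by
  have := lt_gg_iff (y := 0) (β := β) le_rfl
  rwa [Real.cosh_zero, mul_one] at this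

theorem gg_mono {a b : ℝ} (h : |a| ≤ |b|) : gg a ≤ gg b := by
  by_contra hcon
  push Not at hcon
  have h1 := (lt_gg_iff (gg_nonneg b)).mp hcon
  rw [cosh_gg] at h1
  have h2 : |b| ≤ 2 * max 1 (|b| / 2) := by
    have := le_max_right 1 (|b| / 2)
    linarith
  linarith

/-- `|β| ≤ 2 e^{gg β}` -/
theorem abs_le_exp_gg (β : ℝ) : |β| ≤ 2 * Real.exp (gg β) := by
  have h1 : |β| / 2 ≤ Real.cosh (gg β) := by
    rw [cosh_gg]
    exact le_max_right _ _
  have h2 : Real.cosh (gg β) ≤ Real.exp (gg β) := by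
    rw [Real.cosh_eq]
    have : Real.exp (-gg β) ≤ Real.exp (gg β) := Real.exp_le_exp.mpr (by linarith [gg_nonneg β])
    linarith
  linarith

theorem gg_le_log {β : ℝ} (h : 1 ≤ |β|) : gg β ≤ Real.log |β| := by
  rw [← Real.exp_le_exp, Real.exp_log (by linarith)]
  rcases le_or_gt |β| 2 with h2 | h2
  · rw [gg_eq_zero h2, Real.exp_zero]
    exact h
  · have h3 : Real.cosh (gg β) = |β| / 2 := by
      rw [cosh_gg]
      exact max_eq_right (by linarith)
    have h4 : Real.exp (gg β) / 2 ≤ Real.cosh (gg β) := by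
      rw [Real.cosh_eq]
      have := Real.exp_pos (-gg β)
      linarith
    linarith

theorem gg_add_two_le {r : ℝ} (hr : 0 ≤ r) : gg (r + 2) ≤ gg r + 2 * Real.log 2 := by
  have h1 : gg (r + 2) ≤ Real.log |r + 2| := gg_le_log (by
    rw [abs_of_nonneg (by linarith)]
    linarith)
  rw [abs_of_nonneg (by linarith : (0:ℝ) ≤ r + 2)] at h1
  refine h1.trans ?_
  have h2 : r + 2 ≤ 4 * Real.exp (gg r) := by
    have h3 := abs_le_exp_gg r
    rw [abs_of_nonneg hr] at h3
    have h4 : 1 ≤ Real.exp (gg r) := Real.one_le_exp (gg_nonneg r)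
    linarith
  have h3 : Real.log (4 * Real.exp (gg r)) = gg r + 2 * Real.log 2 := by
    rw [Real.log_mul (by norm_num) (Real.exp_pos _).ne', Real.log_exp]
    have : (4:ℝ) = 2 ^ 2 := by norm_num
    rw [this, Real.log_pow]
    push_cast
    ring
  rw [← h3]
  exact Real.log_le_log (by linarith) h2

/-- factorization with `a + b = β`, `a b = 1` -/
theorem exists_factor (β : ℝ) : ∃ a b : ℂ, a + b = β ∧ a * b = 1 ∧
    Real.posLog ‖a‖ + Real.posLog ‖b‖ = gg β := by
  rcases le_or_gt |β| 2 with h | h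
  · -- roots on the circle
    have h1 : -1 ≤ β / 2 ∧ β / 2 ≤ 1 := by
      have := abs_le.mp h
      constructor <;> linarith [this.1, this.2]
    set θ := Real.arccos (β / 2) with hθ
    have hc : Real.cos θ = β / 2 := Real.cos_arccos h1.1 h1.2
    refine ⟨Complex.exp (θ * Complex.I), Complex.exp (-(θ * Complex.I)), ?_, ?_, ?_⟩
    · have h2 : Complex.exp (θ * Complex.I) + Complex.exp (-(θ * Complex.I)) =
          2 * Complex.cos θ := by
        rw [Complex.cos, mul_div_cancel₀ _ two_ne_zero, neg_mul]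
      rw [h2, ← Complex.ofReal_cos, hc]
      push_cast
      ring
    · rw [← Complex.exp_add, add_neg_cancel, Complex.exp_zero]
    · rw [gg_eq_zero h, Complex.norm_exp_ofReal_mul_I]
      have h3 : ‖Complex.exp (-(θ * Complex.I))‖ = 1 := by
        have := Complex.norm_exp_ofReal_mul_I (-θ)
        push_cast at this
        rwa [neg_mul] at this
      rw [h3, Real.posLog_one, add_zero]
  · have hg : 0 ≤ gg β := gg_nonneg β
    have h3 : Real.cosh (gg β) = |β| / 2 := by
      rw [cosh_gg]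
      exact max_eq_right (by linarith)
    have h4 : Real.exp (gg β) + Real.exp (-gg β) = |β| := by
      rw [Real.cosh_eq] at h3
      linarith
    have hpl : Real.posLog ‖((Real.exp (gg β) : ℝ) : ℂ)‖ + Real.posLog ‖((Real.exp (-gg β) : ℝ) : ℂ)‖
        = gg β := by
      rw [Complex.norm_real, Complex.norm_real, Real.norm_eq_abs, Real.norm_eq_abs,
        abs_of_pos (Real.exp_pos _), abs_of_pos (Real.exp_pos _)]
      have h5 : Real.posLog (Real.exp (gg β)) = gg β := by
        change max 0 (Real.log _) = _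
        rw [Real.log_exp, max_eq_right hg]
      have h6 : Real.posLog (Real.exp (-gg β)) = 0 := by
        change max 0 (Real.log _) = _
        rw [Real.log_exp, max_eq_left (by linarith)]
      rw [h5, h6, add_zero]
    rcases le_or_gt 0 β with hb | hb
    · refine ⟨((Real.exp (gg β) : ℝ) : ℂ), ((Real.exp (-gg β) : ℝ) : ℂ), ?_, ?_, hpl⟩
      · rw [← Complex.ofReal_add, h4, abs_of_nonneg hb]
      · rw [← Complex.ofReal_mul, ← Real.exp_add, add_neg_cancel, Real.exp_zero, Complex.ofReal_one]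
    · refine ⟨-((Real.exp (gg β) : ℝ) : ℂ), -((Real.exp (-gg β) : ℝ) : ℂ), ?_, ?_, ?_⟩
      · rw [← neg_add, ← Complex.ofReal_add, h4, abs_of_neg hb]
        push_cast
        ring
      · rw [neg_mul_neg, ← Complex.ofReal_mul, ← Real.exp_add, add_neg_cancel, Real.exp_zero,
          Complex.ofReal_one]
      · rw [norm_neg, norm_neg]
        exact hpl

theorem norm_cs_sub (τ : UnitAddCircle) (β : ℝ) {a b : ℂ} (h1 : a + b = β) (h2 : a * b = 1) :
    ‖cs τ - β‖ = ‖((X - C a) * (X - C b) : ℂ[X]).eval (AddCircle.toCircle τ : ℂ)‖ := by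
  have h0 : (AddCircle.toCircle τ : ℂ) ≠ 0 := Circle.coe_ne_zero _
  have hn : ‖(AddCircle.toCircle τ : ℂ)‖ = 1 := Circle.norm_coe _
  have h3 : ((X - C a) * (X - C b) : ℂ[X]).eval (AddCircle.toCircle τ : ℂ) =
      (AddCircle.toCircle τ : ℂ) * (cs τ - β) := by
    rw [cs, ← h1]
    simp only [eval_mul, eval_sub, eval_X, eval_C]
    field_simp
    linear_combination (1:ℂ) * h2
  rw [h3, norm_mul, hn, one_mul]

theorem integrable_cs_sub (β : ℝ) : Integrable fun τ : UnitAddCircle => Real.log ‖cs τ - β‖ := by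
  obtain ⟨a, b, h1, h2, -⟩ := exists_factor β
  simp_rw [norm_cs_sub _ β h1 h2]
  exact integrable_log_norm_eval _

theorem integral_cs_sub (β : ℝ) : ∫ τ : UnitAddCircle, Real.log ‖cs τ - β‖ = gg β := by
  obtain ⟨a, b, h1, h2, h3⟩ := exists_factor β
  simp_rw [norm_cs_sub _ β h1 h2]
  rw [integral_log_norm_eval, logMahlerMeasure_mul_eq_add_logMahlerMeasure
    (mul_ne_zero (X_sub_C_ne_zero a) (X_sub_C_ne_zero b)), logMahlerMeasure_X_sub_C,
    logMahlerMeasure_X_sub_C, h3]

theorem ae_cs_sub_ne (β : ℝ) : ∀ᵐ τ : UnitAddCircle, cs τ - β ≠ 0 := by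
  obtain ⟨a, b, h1, h2, h3⟩ := exists_factor β
  filter_upwards [ae_eval_ne_zero ((X - C a) * (X - C b))
    (mul_ne_zero (X_sub_C_ne_zero a) (X_sub_C_ne_zero b))] with τ hτ
  rw [← norm_ne_zero_iff, norm_cs_sub _ β h1 h2, norm_ne_zero_iff]
  exact hτ

end Pool.Agent.HMB
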