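import Mathlib
import Pool.Agent.HMB.A01

/-!
# Counting eigenvalues of principal submatrices
-/

open Matrix WithLp

namespace Pool.Agent.HMB

section

variable {ι κ : Type*} [Fintype ι] [Fintype κ] [DecidableEq ι] [DecidableEq κ]

/-- quadratic form -/
noncomputable def qf (B : Matrix ι ι ℂ) (y : ι → ℂ) : ℝ := (star y ⬝ᵥ B *ᵥ y).re

/-- squared norm -/
noncomputable def n2 (y : ι → ℂ) : ℝ := ∑ i, ‖y i‖ ^ 2

/-- coefficient of a vector with respect to the eigenbasis -/
noncomputable def ec {B : Matrix ι ι ℂ} (hB : B.IsHermitian) (i : ι) : (ι → ℂ) →ₗ[ℂ] ℂ where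
  toFun y := inner ℂ (hB.eigenvectorBasis i) (toLp 2 y)
  map_add' y z := by rw [toLp_add, inner_add_right]
  map_smul' c y := by rw [toLp_smul, inner_smul_right, RingHom.id_apply, smul_eq_mul]

omit [DecidableEq ι] in
theorem n2_nonneg (y : ι → ℂ) : 0 ≤ n2 y := Finset.sum_nonneg fun i _ => by positivity

omit [DecidableEq ι] in
theorem n2_eq_zero {y : ι → ℂ} (h : n2 y = 0) : y = 0 := by
  funext i
  have h1 := (Finset.sum_eq_zero_iff_of_nonneg (fun i _ => by positivity)).mp h i (Finset.mem_univ i)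
  have h2 : ‖y i‖ = 0 := by
    have : ‖y i‖ ^ 2 = 0 := h1
    exact pow_eq_zero_iff (two_ne_zero) |>.mp this
  exact norm_eq_zero.mp h2

omit [DecidableEq ι] in
theorem n2_pos {y : ι → ℂ} (h : y ≠ 0) : 0 < n2 y :=
  lt_of_le_of_ne (n2_nonneg y) fun h0 => h (n2_eq_zero h0.symm)

theorem n2_eq_ec {B : Matrix ι ι ℂ} (hB : B.IsHermitian) (y : ι → ℂ) :
    n2 y = ∑ i, ‖ec hB i y‖ ^ 2 := by
  have h1 := hB.eigenvectorBasis.sum_sq_norm_inner_right (toLp 2 y)
  have h2 : ‖(toLp 2 y : EuclideanSpace ℂ ι)‖ ^ 2 = n2 y := by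
    rw [EuclideanSpace.norm_sq_eq]
    rfl
  rw [← h2, ← h1]
  rfl

theorem ec_mulVec {B : Matrix ι ι ℂ} (hB : B.IsHermitian) (i : ι) (y : ι → ℂ) :
    ec hB i (B *ᵥ y) = hB.eigenvalues i * ec hB i y := by
  have h1 : ∀ z : ι → ℂ, ec hB i z = star (⇑(hB.eigenvectorBasis i)) ⬝ᵥ z := by
    intro z
    change inner ℂ (hB.eigenvectorBasis i) (toLp 2 z) = _
    rw [EuclideanSpace.inner_eq_star_dotProduct, dotProduct_comm]
  rw [h1, h1, dotProduct_mulVec]
  have h2 : star (⇑(hB.eigenvectorBasis i)) ᵥ* B = star (B *ᵥ ⇑(hB.eigenvectorBasis i)) := by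
    rw [star_mulVec, hB.eq]
  rw [h2, hB.mulVec_eigenvectorBasis, star_smul, smul_dotProduct]
  simp [Complex.real_smul]

theorem qf_eq_ec {B : Matrix ι ι ℂ} (hB : B.IsHermitian) (y : ι → ℂ) :
    qf B y = ∑ i, hB.eigenvalues i * ‖ec hB i y‖ ^ 2 := by
  have h1 : star y ⬝ᵥ B *ᵥ y = inner ℂ (toLp 2 y : EuclideanSpace ℂ ι) (toLp 2 (B *ᵥ y)) := by
    rw [EuclideanSpace.inner_eq_star_dotProduct, dotProduct_comm]
  rw [qf, h1, ← hB.eigenvectorBasis.sum_inner_mul_inner, Complex.re_sum]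
  refine Finset.sum_congr rfl fun i _ => ?_
  have h2 : inner ℂ (hB.eigenvectorBasis i) (toLp 2 (B *ᵥ y)) = hB.eigenvalues i * ec hB i y :=
    ec_mulVec hB i y
  have h3 : inner ℂ (toLp 2 y : EuclideanSpace ℂ ι) (hB.eigenvectorBasis i) =
      (starRingEnd ℂ) (ec hB i y) := by
    rw [← inner_conj_symm]
    rfl
  rw [h2, h3]
  have h4 : (starRingEnd ℂ) (ec hB i y) * (hB.eigenvalues i * ec hB i y) =
      ((hB.eigenvalues i * ‖ec hB i y‖ ^ 2 : ℝ) : ℂ) := by
    have : ec hB i y * (starRingEnd ℂ) (ec hB i y) = ((‖ec hB i y‖ ^ 2 : ℝ) : ℂ) := by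
      rw [Complex.mul_conj, Complex.normSq_eq_norm_sq]
    push_cast at this ⊢
    linear_combination (hB.eigenvalues i : ℂ) * this
  rw [h4, Complex.ofReal_re]

theorem n2_mulVec {B : Matrix ι ι ℂ} (hB : B.IsHermitian) (y : ι → ℂ) :
    n2 (B *ᵥ y) = ∑ i, hB.eigenvalues i ^ 2 * ‖ec hB i y‖ ^ 2 := by
  rw [n2_eq_ec hB]
  refine Finset.sum_congr rfl fun i _ => ?_
  rw [ec_mulVec, norm_mul, mul_pow, Complex.norm_real, Real.norm_eq_abs, sq_abs]

theorem n2_mulVec_le {B : Matrix ι ι ℂ} (hB : B.IsHermitian) {r : ℝ}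
    (hr : ∀ i, |hB.eigenvalues i| ≤ r) (y : ι → ℂ) : n2 (B *ᵥ y) ≤ r ^ 2 * n2 y := by
  rw [n2_mulVec hB, n2_eq_ec hB, Finset.mul_sum]
  refine Finset.sum_le_sum fun i _ => ?_
  have h1 : hB.eigenvalues i ^ 2 ≤ r ^ 2 := by
    rw [← sq_abs]
    exact pow_le_pow_left₀ (abs_nonneg _) (hr i) 2
  gcongr

/-- vectors supported on the range of `f` -/
theorem n2_comp {f : κ → ι} (hf : Function.Injective f) {y : ι → ℂ}
    (hy : ∀ i ∉ Set.range f, y i = 0) : n2 y = n2 (y ∘ f) := by
  symm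
  refine Fintype.sum_of_injective f hf _ _ (fun i hi => ?_) (fun i => rfl)
  rw [hy i hi]
  simp

theorem qf_comp {f : κ → ι} (hf : Function.Injective f) (B : Matrix ι ι ℂ) {y : ι → ℂ}
    (hy : ∀ i ∉ Set.range f, y i = 0) : qf B y = qf (B.submatrix f f) (y ∘ f) := by
  rw [qf, qf]
  congr 1
  rw [dotProduct, dotProduct]
  symm
  refine Fintype.sum_of_injective f hf _ _ (fun i hi => ?_) (fun i => ?_)
  · rw [Pi.star_apply, hy i hi]
    simp
  · rw [Pi.star_apply, Pi.star_apply, Function.comp_apply]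
    congr 1
    rw [mulVec, mulVec, dotProduct, dotProduct]
    refine Fintype.sum_of_injective f hf _ _ (fun j hj => ?_) (fun j => rfl)
    rw [hy j hj, mul_zero]

/-- a vector whose coefficients at the eigenvalues with `x < ε λ` vanish -/
theorem qf_le_of {B : Matrix ι ι ℂ} (hB : B.IsHermitian) (ε x : ℝ) (y : ι → ℂ)
    (hy : ∀ i, x < ε * hB.eigenvalues i → ec hB i y = 0) : ε * qf B y ≤ x * n2 y := by
  rw [qf_eq_ec hB, n2_eq_ec hB, Finset.mul_sum, Finset.mul_sum]
  refine Finset.sum_le_sum fun i _ => ?_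
  by_cases h : x < ε * hB.eigenvalues i
  · rw [hy i h]
    simp
  · push Not at h
    rw [← mul_assoc]
    gcongr

/-- a nonzero vector whose coefficients at the eigenvalues with `ε λ ≤ x` vanish -/
theorem lt_qf_of {B : Matrix ι ι ℂ} (hB : B.IsHermitian) (ε x : ℝ) {y : ι → ℂ} (hy0 : y ≠ 0)
    (hy : ∀ i, ¬ x < ε * hB.eigenvalues i → ec hB i y = 0) : x * n2 y < ε * qf B y := by
  have hpos := n2_pos hy0
  rw [n2_eq_ec hB] at hpos
  rw [qf_eq_ec hB, n2_eq_ec hB, Finset.mul_sum, Finset.mul_sum]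
  obtain ⟨i, -, hi⟩ : ∃ i ∈ Finset.univ, 0 < ‖ec hB i y‖ ^ 2 := by
    by_contra hcon
    push Not at hcon
    have := Finset.sum_nonpos hcon
    linarith
  refine Finset.sum_lt_sum (fun j _ => ?_) ⟨i, Finset.mem_univ i, ?_⟩
  · by_cases h : x < ε * hB.eigenvalues j
    · rw [← mul_assoc]
      gcongr
    · rw [hy j h]
      simp
  · have h : x < ε * hB.eigenvalues i := by
      by_contra h
      rw [hy i h] at hi
      simp at hi
    rw [← mul_assoc]
    exact mul_lt_mul_of_pos_right h hi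

/-- the vector with given coefficients -/
noncomputable def vec {B : Matrix ι ι ℂ} (hB : B.IsHermitian) (p : ι → Prop) [DecidablePred p] :
    ({i // p i} → ℂ) →ₗ[ℂ] (ι → ℂ) where
  toFun c := fun j => ∑ i : {i // p i}, c i * (hB.eigenvectorBasis i) j
  map_add' c d := by
    funext j
    simp only [Pi.add_apply, add_mul, Finset.sum_add_distrib]
  map_smul' a c := by
    funext j
    simp only [Pi.smul_apply, smul_eq_mul, RingHom.id_apply, Finset.mul_sum, mul_assoc]

theorem ec_vec {B : Matrix ι ι ℂ} (hB : B.IsHermitian) (p : ι → Prop) [DecidablePred p]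
    (c : {i // p i} → ℂ) (i : ι) :
    ec hB i (vec hB p c) = if h : p i then c ⟨i, h⟩ else 0 := by
  have h1 : (toLp 2 (vec hB p c) : EuclideanSpace ℂ ι) =
      ∑ j : {i // p i}, c j • (hB.eigenvectorBasis j) := by
    ext k
    rw [WithLp.ofLp_sum]
    simp [vec]
  change inner ℂ (hB.eigenvectorBasis i) (toLp 2 (vec hB p c)) = _
  rw [h1, inner_sum]
  simp_rw [inner_smul_right]
  have h2 : ∀ j : {i // p i}, inner ℂ (hB.eigenvectorBasis i) (hB.eigenvectorBasis j) =
      if i = j then (1:ℂ) else 0 := fun j =>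
    orthonormal_iff_ite.mp hB.eigenvectorBasis.orthonormal i j
  simp_rw [h2]
  split_ifs with h
  · rw [Finset.sum_eq_single ⟨i, h⟩]
    · simp
    · intro j _ hj
      rw [if_neg (fun hij => hj (Subtype.ext hij.symm)), mul_zero]
    · intro hh; exact absurd (Finset.mem_univ _) hh
  · refine Finset.sum_eq_zero fun j _ => ?_
    rw [if_neg (fun hij => h (by rw [hij]; exact j.2)), mul_zero]

theorem vec_ne_zero {B : Matrix ι ι ℂ} (hB : B.IsHermitian) (p : ι → Prop) [DecidablePred p]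
    {c : {i // p i} → ℂ} (hc : c ≠ 0) : vec hB p c ≠ 0 := by
  intro h
  apply hc
  funext i
  have h1 := ec_vec hB p c i
  rw [h, map_zero, dif_pos i.2] at h1
  exact h1.symm

/-- extension by zero -/
noncomputable def ext0 (f : κ → ι) : (κ → ℂ) →ₗ[ℂ] (ι → ℂ) where
  toFun z := fun i => ∑ k, if f k = i then z k else 0
  map_add' z w := by
    funext i
    simp only [Pi.add_apply, ← Finset.sum_add_distrib]
    refine Finset.sum_congr rfl fun k _ => ?_
    split_ifs <;> simp
  map_smul' a z := by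
    funext i
    simp only [Pi.smul_apply, smul_eq_mul, RingHom.id_apply, Finset.mul_sum]
    refine Finset.sum_congr rfl fun k _ => ?_
    split_ifs <;> simp

omit [Fintype ι] [DecidableEq κ] in
theorem ext0_apply {f : κ → ι} (hf : Function.Injective f) (z : κ → ℂ) (k : κ) :
    ext0 f z (f k) = z k := by
  change ∑ l, (if f l = f k then z l else 0) = z k
  rw [Finset.sum_eq_single k]
  · simp
  · intro l _ hl
    rw [if_neg (fun h => hl (hf h))]
  · intro h; exact absurd (Finset.mem_univ _) h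

omit [Fintype ι] [DecidableEq κ] in
theorem ext0_off (f : κ → ι) (z : κ → ℂ) {i : ι} (hi : i ∉ Set.range f) : ext0 f z i = 0 := by
  change ∑ l, (if f l = i then z l else 0) = 0
  refine Finset.sum_eq_zero fun k _ => ?_
  rw [if_neg (fun h => hi ⟨k, h⟩)]

/-- number of eigenvalues with `x < ε λ` -/
noncomputable def cnt {B : Matrix ι ι ℂ} (hB : B.IsHermitian) (ε x : ℝ) : ℕ :=
  Fintype.card {i // x < ε * hB.eigenvalues i}

theorem cnt_submatrix_le {f : κ → ι} (hf : Function.Injective f) {B : Matrix ι ι ℂ}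
    (hB : B.IsHermitian) (hB' : (B.submatrix f f).IsHermitian) (ε x : ℝ) :
    cnt hB' ε x ≤ cnt hB ε x := by
  classical
  by_contra hcon
  push Not at hcon
  set p' : κ → Prop := fun k => x < ε * hB'.eigenvalues k with hp'
  set p : ι → Prop := fun i => x < ε * hB.eigenvalues i with hp
  set L : ({k // p' k} → ℂ) →ₗ[ℂ] ({i // p i} → ℂ) :=
    LinearMap.pi fun i => (ec hB i).comp ((ext0 f).comp (vec hB' p')) with hL
  have h1 : LinearMap.ker L ≠ ⊥ := by
    refine LinearMap.ker_ne_bot_of_finrank_lt ?_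
    rw [Module.finrank_fintype_fun_eq_card, Module.finrank_fintype_fun_eq_card]
    exact hcon
  obtain ⟨c, hc, hc0⟩ := (Submodule.ne_bot_iff _).mp h1
  rw [LinearMap.mem_ker] at hc
  set z := vec hB' p' c with hz
  set y := ext0 f z with hy
  have hoff : ∀ i ∉ Set.range f, y i = 0 := fun i hi => ext0_off f z hi
  have hyf : y ∘ f = z := by
    funext k
    exact ext0_apply hf z k
  have hz0 : z ≠ 0 := vec_ne_zero hB' p' hc0
  have h2 : ε * qf B y ≤ x * n2 y := qf_le_of hB ε x y fun i hi => by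
    have := congrFun hc ⟨i, hi⟩
    exact this
  have h3 : x * n2 z < ε * qf (B.submatrix f f) z := lt_qf_of hB' ε x hz0 fun k hk => by
    rw [hz, ec_vec, dif_neg hk]
  rw [qf_comp hf B hoff, n2_comp hf hoff, hyf] at h2
  linarith

theorem cnt_le_submatrix {f : κ → ι} (hf : Function.Injective f) {B : Matrix ι ι ℂ}
    (hB : B.IsHermitian) (hB' : (B.submatrix f f).IsHermitian) (ε x : ℝ) :
    cnt hB ε x + Fintype.card κ ≤ cnt hB' ε x + Fintype.card ι := by
  classical
  by_contra hcon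
  push Not at hcon
  set p' : κ → Prop := fun k => x < ε * hB'.eigenvalues k with hp'
  set p : ι → Prop := fun i => x < ε * hB.eigenvalues i with hp
  set L : ({i // p i} → ℂ) →ₗ[ℂ] ({k // p' k} → ℂ) × ({i // i ∉ Set.range f} → ℂ) :=
    (LinearMap.pi fun k : {k // p' k} =>
      ((ec hB' (k : κ)).comp (LinearMap.funLeft ℂ ℂ f)).comp (vec hB p)).prod
      (LinearMap.pi fun i : {i // i ∉ Set.range f} =>
        (LinearMap.proj (i : ι) : (ι → ℂ) →ₗ[ℂ] ℂ).comp (vec hB p)) with hL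
  have hcard : Fintype.card {i // i ∉ Set.range f} + Fintype.card κ = Fintype.card ι := by
    have h1 : Fintype.card {i // i ∉ Set.range f} = Fintype.card ι - Fintype.card (Set.range f) :=
      Fintype.card_compl_set (Set.range f)
    have h2 : Fintype.card (Set.range f) = Fintype.card κ := Set.card_range_of_injective hf
    have h3 : Fintype.card κ ≤ Fintype.card ι := Fintype.card_le_of_injective f hf
    omega
  have h1 : LinearMap.ker L ≠ ⊥ := by
    refine LinearMap.ker_ne_bot_of_finrank_lt ?_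
    rw [Module.finrank_prod, Module.finrank_fintype_fun_eq_card,
      Module.finrank_fintype_fun_eq_card, Module.finrank_fintype_fun_eq_card]
    have h2 : cnt hB' ε x = Fintype.card {k // p' k} := rfl
    have h3 : cnt hB ε x = Fintype.card {i // p i} := rfl
    omega
  obtain ⟨c, hc, hc0⟩ := (Submodule.ne_bot_iff _).mp h1
  rw [LinearMap.mem_ker] at hc
  set y := vec hB p c with hy
  have hoff : ∀ i ∉ Set.range f, y i = 0 := fun i hi =>
    congrFun (congrArg Prod.snd hc) ⟨i, hi⟩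
  have hy0 : y ≠ 0 := vec_ne_zero hB p hc0
  have h2 : x * n2 y < ε * qf B y := lt_qf_of hB ε x hy0 fun i hi => by
    rw [hy, ec_vec, dif_neg hi]
  have h3 : ε * qf (B.submatrix f f) (y ∘ f) ≤ x * n2 (y ∘ f) :=
    qf_le_of hB' ε x _ fun k hk => congrFun (congrArg Prod.fst hc) ⟨k, hk⟩
  rw [qf_comp hf B hoff, n2_comp hf hoff] at h2
  linarith

end

end Pool.Agent.HMB
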