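import Mathlib
import Pool.Agent.HMB.A02

/-!
# The measure of a Hermitian matrix
-/

open Matrix MeasureTheory Set

namespace Pool.Agent.HMB

section

variable {ι κ : Type*} [Fintype ι] [Fintype κ] [DecidableEq ι] [DecidableEq κ]

/-- `log |det (x - B)|` averaged over `x = 2 cos 2πs` -/
noncomputable def GG (B : Matrix ι ι ℂ) : ℝ :=
  ∫ τ : UnitAddCircle, Real.log ‖(cs τ • (1 : Matrix ι ι ℂ) - B).det‖

theorem det_eq_prod {B : Matrix ι ι ℂ} (hB : B.IsHermitian) (c : ℂ) :
    (c • (1 : Matrix ι ι ℂ) - B).det = ∏ i, (c - hB.eigenvalues i) := by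
  have h1 := B.eval_charpoly c
  rw [hB.charpoly_eq, Polynomial.eval_prod] at h1
  have h2 : (Matrix.scalar ι c : Matrix ι ι ℂ) = c • (1 : Matrix ι ι ℂ) := by
    rw [Matrix.scalar_apply, Matrix.smul_one_eq_diagonal]
  rw [← h2, ← h1]
  refine Finset.prod_congr rfl fun i _ => ?_
  simp

theorem norm_det_ae {B : Matrix ι ι ℂ} (hB : B.IsHermitian) :
    ∀ᵐ τ : UnitAddCircle, (cs τ • (1 : Matrix ι ι ℂ) - B).det ≠ 0 := by
  have h : ∀ᵐ τ : UnitAddCircle, ∀ i, cs τ - hB.eigenvalues i ≠ 0 :=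
    ae_all_iff.mpr fun i => ae_cs_sub_ne _
  filter_upwards [h] with τ hτ
  rw [det_eq_prod hB]
  exact Finset.prod_ne_zero_iff.mpr fun i _ => hτ i

theorem log_det_ae {B : Matrix ι ι ℂ} (hB : B.IsHermitian) :
    (fun τ : UnitAddCircle => Real.log ‖(cs τ • (1 : Matrix ι ι ℂ) - B).det‖) =ᵐ[volume]
      fun τ => ∑ i, Real.log ‖cs τ - hB.eigenvalues i‖ := by
  have h : ∀ᵐ τ : UnitAddCircle, ∀ i, cs τ - hB.eigenvalues i ≠ 0 :=
    ae_all_iff.mpr fun i => ae_cs_sub_ne _
  filter_upwards [h] with τ hτ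
  rw [det_eq_prod hB, norm_prod, Real.log_prod fun i _ => norm_ne_zero_iff.mpr (hτ i)]

theorem integrable_log_det {B : Matrix ι ι ℂ} (hB : B.IsHermitian) :
    Integrable fun τ : UnitAddCircle => Real.log ‖(cs τ • (1 : Matrix ι ι ℂ) - B).det‖ := by
  refine (integrable_finsetSum Finset.univ fun i _ => integrable_cs_sub (hB.eigenvalues i)).congr ?_
  exact (log_det_ae hB).symm

theorem GG_eq {B : Matrix ι ι ℂ} (hB : B.IsHermitian) : GG B = ∑ i, gg (hB.eigenvalues i) := by
  rw [GG, integral_congr_ae (log_det_ae hB),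
    integral_finsetSum Finset.univ fun i _ => integrable_cs_sub (hB.eigenvalues i)]
  simp_rw [integral_cs_sub]

theorem GG_nonneg {B : Matrix ι ι ℂ} (hB : B.IsHermitian) : 0 ≤ GG B := by
  rw [GG_eq hB]
  exact Finset.sum_nonneg fun i _ => gg_nonneg _

theorem gg_le_GG {B : Matrix ι ι ℂ} (hB : B.IsHermitian) (i : ι) : gg (hB.eigenvalues i) ≤ GG B := by
  rw [GG_eq hB]
  exact Finset.single_le_sum (f := fun i => gg (hB.eigenvalues i)) (fun j _ => gg_nonneg _)
    (Finset.mem_univ i)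

theorem integrable_ind (g : ℝ) : IntegrableOn (fun y : ℝ => if y < g then (1:ℝ) else 0) (Ioi 0) := by
  have h : (fun y : ℝ => if y < g then (1:ℝ) else 0) = (Iio g).indicator fun _ => (1:ℝ) := by
    funext y
    rw [indicator_apply]
    rfl
  rw [h, IntegrableOn, integrable_indicator_iff measurableSet_Iio, IntegrableOn,
    Measure.restrict_restrict measurableSet_Iio]
  have h2 : Iio g ∩ Ioi 0 = Ioo 0 g := by
    ext y
    simp [and_comm]
  rw [h2]
  exact integrableOn_const (by rw [Real.volume_Ioo]; exact ENNReal.ofReal_ne_top)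

theorem integral_ind {g : ℝ} (hg : 0 ≤ g) :
    ∫ y in Ioi (0:ℝ), (if y < g then (1:ℝ) else 0) = g := by
  have h : (fun y : ℝ => if y < g then (1:ℝ) else 0) = (Iio g).indicator fun _ => (1:ℝ) := by
    funext y
    rw [indicator_apply]
    rfl
  rw [h, integral_indicator measurableSet_Iio, Measure.restrict_restrict measurableSet_Iio]
  have h2 : Iio g ∩ Ioi 0 = Ioo 0 g := by
    ext y
    simp [and_comm]
  rw [h2, setIntegral_const, smul_eq_mul, mul_one, Real.volume_real_Ioo_of_le hg, sub_zero]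

theorem ind_split {y : ℝ} (hy : 0 < y) (β : ℝ) : (if y < gg β then (1:ℝ) else 0) =
    (if 2 * Real.cosh y < 1 * β then (1:ℝ) else 0) + (if 2 * Real.cosh y < (-1) * β then (1:ℝ) else 0) := by
  have hc : 0 < 2 * Real.cosh y := by positivity
  have h1 := lt_gg_iff (β := β) hy.le
  rw [lt_abs] at h1
  by_cases ha : 2 * Real.cosh y < 1 * β
  · have hb : ¬ 2 * Real.cosh y < (-1) * β := by linarith
    have : y < gg β := h1.mpr (Or.inl (by linarith))
    rw [if_pos ha, if_neg hb, if_pos this, add_zero]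
  · by_cases hb : 2 * Real.cosh y < (-1) * β
    · have : y < gg β := h1.mpr (Or.inr (by linarith))
      rw [if_neg ha, if_pos hb, if_pos this, zero_add]
    · have : ¬ y < gg β := fun h => (h1.mp h).elim (fun h => ha (by linarith)) fun h => hb (by linarith)
      rw [if_neg ha, if_neg hb, if_neg this, add_zero]

/-- number of eigenvalues of absolute value larger than `2 cosh y` -/
noncomputable def cc {B : Matrix ι ι ℂ} (hB : B.IsHermitian) (y : ℝ) : ℕ :=
  cnt hB 1 (2 * Real.cosh y) + cnt hB (-1) (2 * Real.cosh y)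

theorem cnt_eq_sum {B : Matrix ι ι ℂ} (hB : B.IsHermitian) (ε x : ℝ) :
    (cnt hB ε x : ℝ) = ∑ i, if x < ε * hB.eigenvalues i then (1:ℝ) else 0 := by
  rw [cnt, Fintype.card_subtype, Finset.sum_boole]

theorem cc_eq_sum {B : Matrix ι ι ℂ} (hB : B.IsHermitian) {y : ℝ} (hy : 0 < y) :
    (cc hB y : ℝ) = ∑ i, if y < gg (hB.eigenvalues i) then (1:ℝ) else 0 := by
  rw [cc]
  push_cast
  rw [cnt_eq_sum, cnt_eq_sum, ← Finset.sum_add_distrib]
  exact Finset.sum_congr rfl fun i _ => (ind_split hy _).symm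

theorem integrableOn_cc {B : Matrix ι ι ℂ} (hB : B.IsHermitian) :
    IntegrableOn (fun y : ℝ => (cc hB y : ℝ)) (Ioi 0) := by
  have h1 : IntegrableOn (fun y : ℝ => ∑ i, if y < gg (hB.eigenvalues i) then (1:ℝ) else 0)
      (Ioi 0) := integrable_finsetSum Finset.univ fun i _ => integrable_ind _
  exact h1.congr_fun (fun y hy => (cc_eq_sum hB hy).symm) measurableSet_Ioi

theorem integral_cc {B : Matrix ι ι ℂ} (hB : B.IsHermitian) :
    ∫ y in Ioi (0:ℝ), (cc hB y : ℝ) = GG B := by
  rw [GG_eq hB, setIntegral_congr_fun measurableSet_Ioi fun y hy => cc_eq_sum hB hy,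
    integral_finsetSum Finset.univ fun i _ => integrable_ind _]
  exact Finset.sum_congr rfl fun i _ => integral_ind (gg_nonneg _)

theorem GG_submatrix_le {f : κ → ι} (hf : Function.Injective f) {B : Matrix ι ι ℂ}
    (hB : B.IsHermitian) : GG (B.submatrix f f) ≤ GG B := by
  have hB' : (B.submatrix f f).IsHermitian := hB.submatrix f
  rw [← integral_cc hB, ← integral_cc hB']
  refine setIntegral_mono (integrableOn_cc hB') (integrableOn_cc hB) fun y => ?_
  have h1 := cnt_submatrix_le hf hB hB' 1 (2 * Real.cosh y)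
  have h2 := cnt_submatrix_le hf hB hB' (-1) (2 * Real.cosh y)
  have h3 : cc hB' y ≤ cc hB y := by
    unfold cc
    omega
  exact Nat.cast_le.mpr h3

theorem GG_le_submatrix {f : κ → ι} (hf : Function.Injective f)
    (hcard : Fintype.card ι ≤ Fintype.card κ + 1) {B : Matrix ι ι ℂ} (hB : B.IsHermitian) {r : ℝ}
    (hr0 : 0 ≤ r) (hr : ∀ i, |hB.eigenvalues i| ≤ r) :
    GG B ≤ GG (B.submatrix f f) + 2 * gg r := by
  have hB' : (B.submatrix f f).IsHermitian := hB.submatrix f
  have h1 : ∫ y in Ioi (0:ℝ), ((cc hB' y : ℝ) + 2 * (if y < gg r then (1:ℝ) else 0)) =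
      GG (B.submatrix f f) + 2 * gg r := by
    rw [integral_add (integrableOn_cc hB') ((integrable_ind _).const_mul 2), integral_cc hB',
      integral_const_mul, integral_ind (gg_nonneg r)]
  rw [← h1, ← integral_cc hB]
  refine setIntegral_mono_on (integrableOn_cc hB)
    ((integrableOn_cc hB').add ((integrable_ind _).const_mul 2)) measurableSet_Ioi fun y hy => ?_
  have hy0 : (0:ℝ) < y := hy
  by_cases h : y < gg r
  · rw [if_pos h]
    have h2 := cnt_le_submatrix hf hB hB' 1 (2 * Real.cosh y)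
    have h3 := cnt_le_submatrix hf hB hB' (-1) (2 * Real.cosh y)
    have h4 : cc hB y ≤ cc hB' y + 2 := by
      unfold cc
      omega
    have h5 : (cc hB y : ℝ) ≤ (cc hB' y : ℝ) + 2 := by exact_mod_cast h4
    linarith
  · rw [if_neg h]
    have h2 : (cc hB y : ℝ) = 0 := by
      rw [cc_eq_sum hB hy0]
      refine Finset.sum_eq_zero fun i _ => ?_
      rw [if_neg]
      intro h3
      apply h
      refine h3.trans_le (gg_mono ?_)
      rw [abs_of_nonneg hr0]
      exact hr i
    have h3 : (0:ℝ) ≤ (cc hB' y : ℝ) := Nat.cast_nonneg _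
    rw [h2]
    linarith

/-- the largest absolute value of an eigenvalue -/
theorem exists_rad [Nonempty ι] {B : Matrix ι ι ℂ} (hB : B.IsHermitian) :
    ∃ i0, ∀ i, |hB.eigenvalues i| ≤ |hB.eigenvalues i0| := by
  obtain ⟨i0, -, h⟩ := Finset.exists_max_image Finset.univ (fun i => |hB.eigenvalues i|)
    Finset.univ_nonempty
  exact ⟨i0, fun i => h i (Finset.mem_univ i)⟩

end

end Pool.Agent.HMB
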