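import Mathlib
import Pool.Agent.HMB.A03
import Pool.Agent.H27Mahler.Torus

/-!
# Pairs of a Hermitian matrix and a principal submatrix of codimension one
-/

open Matrix MeasureTheory Set Pool.Agent.H27Mahler

namespace Pool.Agent.HMB

section

variable {ι κ : Type*} [Fintype ι] [Fintype κ] [DecidableEq ι] [DecidableEq κ]

/-- `f` is injective with range the complement of `v` -/
def Off (f : κ → ι) (v : ι) : Prop := Function.Injective f ∧ ∀ i, i ∈ Set.range f ↔ i ≠ v

/-- the decomposition of the index set -/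
noncomputable def offEquiv {f : κ → ι} {v : ι} (h : Off f v) : κ ⊕ Unit ≃ ι :=
  Equiv.ofBijective (Sum.elim f fun _ => v) (by
    constructor
    · rintro (a | a) (b | b) hab
      · simp only [Sum.elim_inl] at hab
        rw [h.1 hab]
      · simp only [Sum.elim_inl, Sum.elim_inr] at hab
        exact absurd hab ((h.2 _).mp ⟨a, rfl⟩)
      · simp only [Sum.elim_inl, Sum.elim_inr] at hab
        exact absurd hab.symm ((h.2 _).mp ⟨b, rfl⟩)
      · rfl
    · intro i
      by_cases hi : i = v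
      · exact ⟨Sum.inr (), by simp [hi]⟩
      · obtain ⟨k, hk⟩ := (h.2 i).mpr hi
        exact ⟨Sum.inl k, by simp [hk]⟩)

theorem offEquiv_inl {f : κ → ι} {v : ι} (h : Off f v) (k : κ) : offEquiv h (Sum.inl k) = f k := rfl

theorem offEquiv_inr {f : κ → ι} {v : ι} (h : Off f v) : offEquiv h (Sum.inr ()) = v := rfl

theorem card_off {f : κ → ι} {v : ι} (h : Off f v) : Fintype.card ι = Fintype.card κ + 1 := by
  rw [← Fintype.card_congr (offEquiv h), Fintype.card_sum, Fintype.card_unit]

theorem det_updateRow_single {f : κ → ι} {v : ι} (h : Off f v) (M : Matrix ι ι ℂ) :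
    (M.updateRow v (Pi.single v 1)).det = (M.submatrix f f).det := by
  rw [← Matrix.det_submatrix_equiv_self (offEquiv h) (M.updateRow v (Pi.single v 1))]
  have h1 : (M.updateRow v (Pi.single v 1)).submatrix (offEquiv h) (offEquiv h) =
      Matrix.fromBlocks (M.submatrix f f) (Matrix.of fun k (_ : Unit) => M (f k) v) 0
        (1 : Matrix Unit Unit ℂ) := by
    ext (a | a) (b | b)
    · rw [submatrix_apply, offEquiv_inl, offEquiv_inl, updateRow_ne ((h.2 _).mp ⟨a, rfl⟩)]
      rfl
    · rw [submatrix_apply, offEquiv_inl, offEquiv_inr, updateRow_ne ((h.2 _).mp ⟨a, rfl⟩)]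
      rfl
    · rw [submatrix_apply, offEquiv_inl, offEquiv_inr, updateRow_self,
        Pi.single_eq_of_ne ((h.2 _).mp ⟨b, rfl⟩)]
      rfl
    · rw [submatrix_apply, offEquiv_inr, updateRow_self, Pi.single_eq_same]
      rfl
  rw [h1, Matrix.det_fromBlocks_zero₂₁, Matrix.det_one, mul_one]

/-- the matrix with one diagonal entry changed -/
noncomputable def pert (B : Matrix ι ι ℂ) (v : ι) (τ : ℂ) : Matrix ι ι ℂ :=
  B + Matrix.single v v τ

theorem det_pert {f : κ → ι} {v : ι} (h : Off f v) (B : Matrix ι ι ℂ) (c τ : ℂ) :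
    (c • (1 : Matrix ι ι ℂ) - pert B v τ).det =
      (c • (1 : Matrix ι ι ℂ) - B).det - τ * (c • (1 : Matrix κ κ ℂ) - B.submatrix f f).det := by
  set M := c • (1 : Matrix ι ι ℂ) - B with hM
  have h1 : c • (1 : Matrix ι ι ℂ) - pert B v τ = M.updateRow v (M v + (-τ) • Pi.single v 1) := by
    ext i j
    by_cases hi : i = v
    · subst hi
      rw [updateRow_self]
      simp only [pert, hM, Matrix.sub_apply, Matrix.add_apply, Matrix.smul_apply, Pi.add_apply,
        Pi.smul_apply, smul_eq_mul, Matrix.single_apply]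
      by_cases hj : i = j
      · subst hj
        simp
        ring
      · rw [Pi.single_eq_of_ne (Ne.symm hj)]
        simp [hj]
    · rw [updateRow_ne hi]
      simp only [pert, hM, Matrix.sub_apply, Matrix.add_apply, Matrix.single_apply]
      rw [if_neg (fun h => hi h.1.symm)]
      ring
  rw [h1, det_updateRow_add, updateRow_eq_self, det_updateRow_smul, det_updateRow_single h]
  have h2 : M.submatrix f f = c • (1 : Matrix κ κ ℂ) - B.submatrix f f := by
    rw [hM]
    ext a b
    simp only [submatrix_apply, Matrix.sub_apply, Matrix.smul_apply, Matrix.one_apply]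
    by_cases hab : a = b
    · subst hab
      simp
    · rw [if_neg (fun h' => hab (h.1 h')), if_neg hab]
  rw [h2]
  ring

theorem pert_isHermitian {B : Matrix ι ι ℂ} (hB : B.IsHermitian) (v : ι) (τ : ℝ) :
    (pert B v τ).IsHermitian := by
  refine hB.add ?_
  rw [Matrix.IsHermitian, Matrix.conjTranspose_single]
  congr 1
  exact Complex.conj_ofReal τ

theorem pert_submatrix {f : κ → ι} {v : ι} (h : Off f v) (B : Matrix ι ι ℂ) (τ : ℂ) :
    (pert B v τ).submatrix f f = B.submatrix f f := by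
  ext a b
  simp only [pert, submatrix_apply, Matrix.add_apply, Matrix.single_apply]
  rw [if_neg (fun h' => (h.2 _).mp ⟨a, rfl⟩ h'.1.symm), add_zero]

theorem n2_add_le (y z : ι → ℂ) : Real.sqrt (n2 (y + z)) ≤ Real.sqrt (n2 y) + Real.sqrt (n2 z) := by
  have h : ∀ w : ι → ℂ, Real.sqrt (n2 w) = ‖(WithLp.toLp 2 w : EuclideanSpace ℂ ι)‖ := by
    intro w
    rw [EuclideanSpace.norm_eq]
    rfl
  rw [h, h, h, WithLp.toLp_add]
  exact norm_add_le _ _

theorem n2_smul (c : ℂ) (y : ι → ℂ) : n2 (c • y) = ‖c‖ ^ 2 * n2 y := by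
  simp only [n2, Finset.mul_sum, Pi.smul_apply, smul_eq_mul, norm_mul, mul_pow]

/-- eigenvalues of the perturbed matrix -/
theorem eigenvalues_pert_le {B : Matrix ι ι ℂ} (hB : B.IsHermitian) {r : ℝ} (hr0 : 0 ≤ r)
    (hr : ∀ i, |hB.eigenvalues i| ≤ r) (v : ι) (τ : ℝ) (i : ι) :
    |(pert_isHermitian hB v τ).eigenvalues i| ≤ r + |τ| := by
  set hP := pert_isHermitian hB v τ with hhP
  set u : ι → ℂ := ⇑(hP.eigenvectorBasis i) with hu
  have hun : n2 u = 1 := by
    have h1 : ‖hP.eigenvectorBasis i‖ = 1 := hP.eigenvectorBasis.orthonormal.1 i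
    have h2 : ‖hP.eigenvectorBasis i‖ ^ 2 = n2 u := by
      rw [EuclideanSpace.norm_sq_eq]
      rfl
    rw [← h2, h1, one_pow]
  have h1 := hP.mulVec_eigenvectorBasis i
  rw [← hu] at h1
  have h2 : pert B v τ *ᵥ u = B *ᵥ u + ((τ : ℂ) * u v) • (Pi.single v (1:ℂ) : ι → ℂ) := by
    rw [pert, add_mulVec]
    congr 1
    funext j
    rw [Pi.smul_apply, mulVec, dotProduct]
    by_cases hj : j = v
    · subst hj
      rw [Finset.sum_eq_single j]
      · simp
      · intro k _ hk
        rw [Matrix.single_apply, if_neg (fun h => hk h.2.symm), zero_mul]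
      · intro hh; exact absurd (Finset.mem_univ _) hh
    · rw [Pi.single_eq_of_ne hj, smul_zero]
      refine Finset.sum_eq_zero fun k _ => ?_
      rw [Matrix.single_apply, if_neg (fun h => hj h.1.symm), zero_mul]
  have h3 : Real.sqrt (n2 (pert B v τ *ᵥ u)) = |hP.eigenvalues i| := by
    rw [h1]
    have h4 : (hP.eigenvalues i) • u = ((hP.eigenvalues i : ℝ) : ℂ) • u := by
      funext j
      simp [Complex.real_smul]
    rw [h4, n2_smul, hun, mul_one, Complex.norm_real, Real.norm_eq_abs, Real.sqrt_sq (abs_nonneg _)]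
  have h5 : Real.sqrt (n2 (B *ᵥ u)) ≤ r := by
    have h6 := n2_mulVec_le hB hr u
    rw [hun, mul_one] at h6
    exact Real.sqrt_le_iff.mpr ⟨hr0, h6⟩
  have h6 : Real.sqrt (n2 (((τ : ℂ) * u v) • (Pi.single v (1:ℂ) : ι → ℂ))) ≤ |τ| := by
    rw [n2_smul]
    have h7 : n2 (Pi.single v (1:ℂ) : ι → ℂ) = 1 := by
      rw [n2, Finset.sum_eq_single v]
      · simp
      · intro j _ hj
        rw [Pi.single_eq_of_ne hj]
        simp
      · intro hh; exact absurd (Finset.mem_univ _) hh
    rw [h7, mul_one, norm_mul, Complex.norm_real, Real.norm_eq_abs,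
      Real.sqrt_sq (by positivity)]
    have h8 : ‖u v‖ ^ 2 ≤ 1 := by
      rw [← hun]
      exact Finset.single_le_sum (f := fun j => ‖u j‖ ^ 2) (fun j _ => by positivity)
        (Finset.mem_univ v)
    have h9 : ‖u v‖ ≤ 1 := (sq_le_one_iff₀ (norm_nonneg _)).mp h8
    calc |τ| * ‖u v‖ ≤ |τ| * 1 := by gcongr
      _ = |τ| := mul_one _
  have h7 := n2_add_le (B *ᵥ u) (((τ : ℂ) * u v) • (Pi.single v (1:ℂ) : ι → ℂ))
  rw [← h2, h3] at h7
  linarith

theorem GG_pert_le {f : κ → ι} {v : ι} (h : Off f v) {B : Matrix ι ι ℂ} (hB : B.IsHermitian) {r : ℝ}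
    (hr0 : 0 ≤ r) (hr : ∀ i, |hB.eigenvalues i| ≤ r) {τ : ℝ} (hτ : |τ| ≤ 2) :
    GG (pert B v τ) ≤ GG B + 2 * gg (r + 2) := by
  have h1 := GG_le_submatrix h.1 (card_off h).le (pert_isHermitian hB v τ) (r := r + 2) (by linarith)
    (fun i => (eigenvalues_pert_le hB hr0 hr v τ i).trans (by linarith))
  rw [pert_submatrix h] at h1
  have h2 := GG_submatrix_le h.1 hB
  linarith

/-- the degree two polynomial -/
theorem pair_le_integral (a b : ℂ) (hab : ¬ (a = 0 ∧ b = 0)) :
    Real.log (max ‖a‖ ‖b‖) ≤ 2 * Real.log 2 + ∫ u : UnitAddCircle, Real.log ‖a - cs u * b‖ := by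
  open Polynomial in
  set p : ℂ[X] := C a * X - C b * (X ^ 2 + 1) with hp
  have hev : ∀ u : UnitAddCircle, ‖a - cs u * b‖ = ‖p.eval (AddCircle.toCircle u : ℂ)‖ := by
    intro u
    have h0 : (AddCircle.toCircle u : ℂ) ≠ 0 := Circle.coe_ne_zero _
    have hn : ‖(AddCircle.toCircle u : ℂ)‖ = 1 := Circle.norm_coe _
    have h3 : p.eval (AddCircle.toCircle u : ℂ) = (AddCircle.toCircle u : ℂ) * (a - cs u * b) := by
      rw [cs, hp]
      simp only [Polynomial.eval_mul, Polynomial.eval_sub, Polynomial.eval_X, Polynomial.eval_C,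
        Polynomial.eval_add, Polynomial.eval_pow, Polynomial.eval_one]
      field_simp
    rw [h3, norm_mul, hn, one_mul]
  simp_rw [hev]
  have hdeg : p.natDegree ≤ 2 := by
    rw [hp]
    compute_degree
  have c1 : p.coeff 1 = a := by
    rw [hp]
    simp [Polynomial.coeff_one, Polynomial.coeff_X_pow, Polynomial.coeff_C_mul]
  have c2 : p.coeff 2 = -b := by
    rw [hp]
    simp [Polynomial.coeff_one, Polynomial.coeff_X_pow, Polynomial.coeff_C_mul]
  rcases le_total ‖b‖ ‖a‖ with h | h
  · rw [max_eq_left h]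
    have ha : a ≠ 0 := by
      intro ha
      apply hab
      refine ⟨ha, ?_⟩
      rw [ha, norm_zero] at h
      exact norm_le_zero_iff.mp h
    have := log_coeff_le p 1 (by rw [c1]; exact ha) 2 hdeg
    rw [c1] at this
    exact_mod_cast this
  · rw [max_eq_right h]
    have hb : b ≠ 0 := by
      intro hb
      apply hab
      refine ⟨?_, hb⟩
      rw [hb, norm_zero] at h
      exact norm_le_zero_iff.mp h
    have := log_coeff_le p 2 (by rw [c2]; exact neg_ne_zero.mpr hb) 2 hdeg
    rw [c2, norm_neg] at this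
    exact_mod_cast this

theorem integrable_pair_inner (a b : ℂ) :
    Integrable fun u : UnitAddCircle => Real.log ‖a - cs u * b‖ := by
  open Polynomial in
  set p : ℂ[X] := C a * X - C b * (X ^ 2 + 1) with hp
  have hev : ∀ u : UnitAddCircle, ‖a - cs u * b‖ = ‖p.eval (AddCircle.toCircle u : ℂ)‖ := by
    intro u
    have h0 : (AddCircle.toCircle u : ℂ) ≠ 0 := Circle.coe_ne_zero _
    have hn : ‖(AddCircle.toCircle u : ℂ)‖ = 1 := Circle.norm_coe _
    have h3 : p.eval (AddCircle.toCircle u : ℂ) = (AddCircle.toCircle u : ℂ) * (a - cs u * b) := by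
      rw [cs, hp]
      simp only [Polynomial.eval_mul, Polynomial.eval_sub, Polynomial.eval_X, Polynomial.eval_C,
        Polynomial.eval_add, Polynomial.eval_pow, Polynomial.eval_one]
      field_simp
    rw [h3, norm_mul, hn, one_mul]
  simp_rw [hev]
  exact integrable_log_norm_eval p

theorem continuous_det_cs (B : Matrix ι ι ℂ) :
    Continuous fun τ : UnitAddCircle => (cs τ • (1 : Matrix ι ι ℂ) - B).det := by
  refine Continuous.matrix_det ?_
  exact (continuous_cs.smul continuous_const).sub continuous_const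

theorem exists_bound_det (B : Matrix ι ι ℂ) : ∃ C : ℝ, 1 ≤ C ∧ ∀ τ : UnitAddCircle,
    ‖(cs τ • (1 : Matrix ι ι ℂ) - B).det‖ ≤ C := by
  obtain ⟨C, hC⟩ := (isCompact_range (continuous_det_cs B).norm).bddAbove
  exact ⟨max C 1, le_max_right _ _, fun τ => (hC ⟨τ, rfl⟩).trans (le_max_left _ _)⟩

theorem abs_log_le {x C : ℝ} (hx0 : 0 ≤ x) (hx : x ≤ C) (hC : 1 ≤ C) :
    |Real.log x| ≤ 2 * Real.log C - Real.log x := by
  have h0 : 0 ≤ Real.log C := Real.log_nonneg hC
  have h1 : Real.log x ≤ Real.log C := by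
    rcases hx0.eq_or_lt with h | h
    · rw [← h, Real.log_zero]
      exact h0
    · exact Real.log_le_log h hx
  rw [abs_le]
  constructor <;> linarith

/-- the double integral -/
theorem integrable_double {f : κ → ι} {B : Matrix ι ι ℂ} (hB : B.IsHermitian) :
    Integrable (fun p : UnitAddCircle × UnitAddCircle =>
      Real.log ‖(cs p.1 • (1 : Matrix ι ι ℂ) - B).det -
        cs p.2 * (cs p.1 • (1 : Matrix κ κ ℂ) - B.submatrix f f).det‖)
      ((volume : Measure UnitAddCircle).prod volume) := by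
  set a : UnitAddCircle → ℂ := fun τ => (cs τ • (1 : Matrix ι ι ℂ) - B).det with ha
  set b : UnitAddCircle → ℂ := fun τ => (cs τ • (1 : Matrix κ κ ℂ) - B.submatrix f f).det with hb
  have hac : Continuous a := continuous_det_cs B
  have hbc : Continuous b := continuous_det_cs _
  have hcont : Continuous fun p : UnitAddCircle × UnitAddCircle => a p.1 - cs p.2 * b p.1 :=
    (hac.comp continuous_fst).sub ((continuous_cs.comp continuous_snd).mul (hbc.comp continuous_fst))
  have hmeas : Measurable fun p : UnitAddCircle × UnitAddCircle =>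
      Real.log ‖a p.1 - cs p.2 * b p.1‖ := Real.measurable_log.comp hcont.norm.measurable
  obtain ⟨C, hC1, hC⟩ := exists_bound_det B
  obtain ⟨C', hC1', hC'⟩ := exists_bound_det (B.submatrix f f)
  have hcs : ∀ u : UnitAddCircle, ‖cs u‖ ≤ 2 := by
    intro u
    refine (norm_add_le _ _).trans ?_
    rw [norm_inv, Circle.norm_coe]
    norm_num
  have hbound : ∀ s u, ‖a s - cs u * b s‖ ≤ C + 2 * C' := by
    intro s u
    refine (norm_sub_le _ _).trans ?_
    rw [norm_mul]
    have h1 := hC s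
    have h2 := hC' s
    have h3 := hcs u
    gcongr
  refine (integrable_prod_iff hmeas.aestronglyMeasurable).mpr ⟨?_, ?_⟩
  · exact Filter.Eventually.of_forall fun s => integrable_pair_inner (a s) (b s)
  · have hdom : Integrable fun s : UnitAddCircle =>
        2 * Real.log (C + 2 * C') + 2 * Real.log 2 - Real.log ‖a s‖ :=
      (integrable_const _).sub (integrable_log_det hB)
    refine hdom.mono' hmeas.aestronglyMeasurable.norm.integral_prod_right' ?_
    filter_upwards [norm_det_ae hB] with s hs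
    have h0 : 0 ≤ ∫ u, ‖Real.log ‖a s - cs u * b s‖‖ := integral_nonneg fun u => norm_nonneg _
    rw [Real.norm_eq_abs, abs_of_nonneg h0]
    have h1 : ∫ u, ‖Real.log ‖a s - cs u * b s‖‖ ≤
        ∫ u, (2 * Real.log (C + 2 * C') - Real.log ‖a s - cs u * b s‖) := by
      refine integral_mono (integrable_pair_inner (a s) (b s)).norm
        ((integrable_const _).sub (integrable_pair_inner (a s) (b s))) fun u => ?_
      exact abs_log_le (norm_nonneg _) (hbound s u) (by linarith)
    have h2 : ∫ u, (2 * Real.log (C + 2 * C') - Real.log ‖a s - cs u * b s‖) =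
        2 * Real.log (C + 2 * C') - ∫ u, Real.log ‖a s - cs u * b s‖ := by
      rw [integral_sub (integrable_const _) (integrable_pair_inner (a s) (b s)), integral_const,
        probReal_univ, one_smul]
    have h3 := pair_le_integral (a s) (b s) (fun h => hs h.1)
    have h4 : Real.log ‖a s‖ ≤ Real.log (max ‖a s‖ ‖b s‖) :=
      Real.log_le_log (norm_pos_iff.mpr hs) (le_max_left _ _)
    linarith

/-- the pair measure of `B` and a principal submatrix -/
noncomputable def PL (B : Matrix ι ι ℂ) (B' : Matrix κ κ ℂ) : ℝ :=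
  ∫ τ : UnitAddCircle, Real.log (‖(cs τ • (1 : Matrix ι ι ℂ) - B).det‖ ^ 2 +
    ‖(cs τ • (1 : Matrix κ κ ℂ) - B').det‖ ^ 2)

theorem integrable_PL {B : Matrix ι ι ℂ} (hB : B.IsHermitian) (B' : Matrix κ κ ℂ) :
    Integrable fun τ : UnitAddCircle => Real.log (‖(cs τ • (1 : Matrix ι ι ℂ) - B).det‖ ^ 2 +
      ‖(cs τ • (1 : Matrix κ κ ℂ) - B').det‖ ^ 2) := by
  obtain ⟨C, hC1, hC⟩ := exists_bound_det B
  obtain ⟨C', hC1', hC'⟩ := exists_bound_det B'
  refine integrable_log_sq_add (C := C ^ 2 + C' ^ 2) (continuous_det_cs B).measurable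
    (continuous_det_cs B').measurable (fun s => ?_) (integrable_log_det hB) (norm_det_ae hB)
  have h1 := hC s
  have h2 := hC' s
  gcongr

theorem PL_le {f : κ → ι} {v : ι} (h : Off f v) {B : Matrix ι ι ℂ} (hB : B.IsHermitian) {r : ℝ}
    (hr0 : 0 ≤ r) (hr : ∀ i, |hB.eigenvalues i| ≤ r) :
    PL B (B.submatrix f f) ≤ 13 * Real.log 2 + 2 * GG B + 4 * gg r := by
  set a : UnitAddCircle → ℂ := fun τ => (cs τ • (1 : Matrix ι ι ℂ) - B).det with ha
  set b : UnitAddCircle → ℂ := fun τ => (cs τ • (1 : Matrix κ κ ℂ) - B.submatrix f f).det with hb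
  have hdouble := integrable_double (f := f) hB
  have hswap : ∫ s, ∫ u, Real.log ‖a s - cs u * b s‖ = ∫ u, ∫ s, Real.log ‖a s - cs u * b s‖ :=
    integral_integral_swap (f := fun s u => Real.log ‖a s - cs u * b s‖) hdouble
  have hint : Integrable fun s => ∫ u, Real.log ‖a s - cs u * b s‖ :=
    hdouble.integral_prod_left
  have hint2 : Integrable fun u => ∫ s, Real.log ‖a s - cs u * b s‖ :=
    hdouble.integral_prod_right
  have hin : ∀ u, ∫ s, Real.log ‖a s - cs u * b s‖ ≤ GG B + 2 * gg (r + 2) := by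
    intro u
    have h1 : ∫ s, Real.log ‖a s - cs u * b s‖ = GG (pert B v ((cs u).re : ℝ)) := by
      rw [GG]
      refine integral_congr_ae (Filter.Eventually.of_forall fun s => ?_)
      change Real.log ‖a s - cs u * b s‖ =
        Real.log ‖(cs s • (1 : Matrix ι ι ℂ) - pert B v (((cs u).re : ℝ) : ℂ)).det‖
      rw [det_pert h, cs_real]
    rw [h1]
    exact GG_pert_le h hB hr0 hr (abs_cs_le u)
  have hle : ∫ u, ∫ s, Real.log ‖a s - cs u * b s‖ ≤ GG B + 2 * gg (r + 2) := by
    refine (integral_mono hint2 (integrable_const (GG B + 2 * gg (r + 2))) hin).trans ?_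
    rw [integral_const, probReal_univ, one_smul]
  have hpl : PL B (B.submatrix f f) ≤
      ∫ s, (5 * Real.log 2 + 2 * ∫ u, Real.log ‖a s - cs u * b s‖) := by
    refine integral_mono_ae (integrable_PL hB _)
      ((integrable_const _).add (hint.const_mul 2)) ?_
    filter_upwards [norm_det_ae hB] with s hs
    have h3 := pair_le_integral (a s) (b s) (fun h => hs h.1)
    have hpos : 0 < max ‖a s‖ ‖b s‖ := lt_max_of_lt_left (norm_pos_iff.mpr hs)
    have h4 : ‖a s‖ ^ 2 + ‖b s‖ ^ 2 ≤ 2 * max ‖a s‖ ‖b s‖ ^ 2 := by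
      have h5 : ‖a s‖ ^ 2 ≤ max ‖a s‖ ‖b s‖ ^ 2 :=
        pow_le_pow_left₀ (norm_nonneg _) (le_max_left _ _) 2
      have h6 : ‖b s‖ ^ 2 ≤ max ‖a s‖ ‖b s‖ ^ 2 :=
        pow_le_pow_left₀ (norm_nonneg _) (le_max_right _ _) 2
      linarith
    have h5 : Real.log (‖a s‖ ^ 2 + ‖b s‖ ^ 2) ≤ Real.log 2 + 2 * Real.log (max ‖a s‖ ‖b s‖) := by
      have h6 : Real.log (2 * max ‖a s‖ ‖b s‖ ^ 2) = Real.log 2 + 2 * Real.log (max ‖a s‖ ‖b s‖) := by
        rw [Real.log_mul two_ne_zero (by positivity), Real.log_pow]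
        push_cast
        ring
      rw [← h6]
      refine Real.log_le_log ?_ h4
      have := norm_pos_iff.mpr hs
      positivity
    change Real.log (‖a s‖ ^ 2 + ‖b s‖ ^ 2) ≤ _
    linarith
  have hcomp : ∫ s, (5 * Real.log 2 + 2 * ∫ u, Real.log ‖a s - cs u * b s‖) =
      5 * Real.log 2 + 2 * ∫ s, ∫ u, Real.log ‖a s - cs u * b s‖ := by
    rw [integral_add (integrable_const _) (hint.const_mul 2), integral_const,
      probReal_univ, one_smul, integral_const_mul]
  have hg := gg_add_two_le hr0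
  rw [hcomp, hswap] at hpl
  linarith

end

end Pool.Agent.HMB
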