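import Mathlib
import Pool.Agent.HMB.A04

/-!
# Size of a minimal Hermitian matrix with an eigenvalue outside `[-2, 2]`
-/

open Matrix MeasureTheory Set

namespace Pool.Agent.HMB

section

variable {ι κ : Type*} [Fintype ι] [Fintype κ] [DecidableEq ι] [DecidableEq κ]

/-- set the coordinate `v` to zero -/
noncomputable def cut (v : ι) (y : ι → ℂ) : ι → ℂ := Function.update y v 0

omit [Fintype ι] in
theorem cut_self (v : ι) (y : ι → ℂ) : cut v y v = 0 := Function.update_self ..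

omit [Fintype ι] in
theorem cut_ne {v i : ι} (h : i ≠ v) (y : ι → ℂ) : cut v y i = y i := Function.update_of_ne h ..

theorem n2_cut (v : ι) (y : ι → ℂ) : n2 y = ‖y v‖ ^ 2 + n2 (cut v y) := by
  rw [n2, n2, ← Finset.add_sum_erase _ _ (Finset.mem_univ v),
    ← Finset.add_sum_erase Finset.univ (fun i => ‖cut v y i‖ ^ 2) (Finset.mem_univ v), cut_self]
  simp only [norm_zero, ne_eq, OfNat.ofNat_ne_zero, not_false_eq_true, zero_pow, zero_add,
    add_right_inj]
  refine Finset.sum_congr rfl fun i hi => ?_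
  rw [cut_ne (Finset.ne_of_mem_erase hi)]

theorem n2_cut_le (v : ι) (y : ι → ℂ) : n2 (cut v y) ≤ n2 y := by
  rw [n2_cut v y]
  have : 0 ≤ ‖y v‖ ^ 2 := by positivity
  linarith

theorem n2_single (v : ι) : n2 (Pi.single v (1:ℂ) : ι → ℂ) = 1 := by
  rw [n2, Finset.sum_eq_single v]
  · simp
  · intro j _ hj
    rw [Pi.single_eq_of_ne hj]
    simp
  · intro hh; exact absurd (Finset.mem_univ _) hh

/-- the compression off `v` has norm at most `2` -/
def Small (B : Matrix ι ι ℂ) (v : ι) : Prop :=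
  ∀ y : ι → ℂ, y v = 0 → n2 (cut v (B *ᵥ y)) ≤ 4 * n2 y

theorem small_of {f : κ → ι} {v : ι} (h : Off f v) {B : Matrix ι ι ℂ} (hB : B.IsHermitian)
    (hr : ∀ k, |(hB.submatrix f).eigenvalues k| ≤ 2) : Small B v := by
  intro y hy
  have hoff : ∀ i ∉ Set.range f, y i = 0 := by
    intro i hi
    have : i = v := by
      by_contra hne
      exact hi ((h.2 i).mpr hne)
    rw [this, hy]
  have hoff2 : ∀ i ∉ Set.range f, cut v (B *ᵥ y) i = 0 := by
    intro i hi
    have : i = v := by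
      by_contra hne
      exact hi ((h.2 i).mpr hne)
    rw [this, cut_self]
  rw [n2_comp h.1 hoff, n2_comp h.1 hoff2]
  have h1 : cut v (B *ᵥ y) ∘ f = B.submatrix f f *ᵥ (y ∘ f) := by
    funext k
    rw [Function.comp_apply, cut_ne ((h.2 _).mp ⟨k, rfl⟩), mulVec, mulVec, dotProduct, dotProduct]
    symm
    refine Fintype.sum_of_injective f h.1 _ _ (fun j hj => ?_) (fun j => rfl)
    rw [hoff j hj, mul_zero]
  rw [h1]
  have h2 := n2_mulVec_le (hB.submatrix f) hr (y ∘ f)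
  norm_num at h2
  exact h2

theorem n2_col_le {B : Matrix ι ι ℂ} (hB : B.IsHermitian) {r : ℝ}
    (hr : ∀ i, |hB.eigenvalues i| ≤ r) (v : ι) : ∑ i, ‖B i v‖ ^ 2 ≤ r ^ 2 := by
  have h1 := n2_mulVec_le hB hr (Pi.single v (1:ℂ) : ι → ℂ)
  rw [n2_single, mul_one, mulVec_single_one] at h1
  exact h1

theorem size_bound {B : Matrix ι ι ℂ} (hB : B.IsHermitian) (i0 : ι)
    (hr : ∀ i, |hB.eigenvalues i| ≤ |hB.eigenvalues i0|) (h2 : 2 < |hB.eigenvalues i0|)
    (hs : ∀ v, Small B v) :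
    (Fintype.card ι : ℝ) ≤ 1 + (|hB.eigenvalues i0| / (|hB.eigenvalues i0| - 2)) ^ 2 := by
  set β := hB.eigenvalues i0 with hβ
  set r := |β| with hrr
  set x : ι → ℂ := ⇑(hB.eigenvectorBasis i0) with hx
  have hxn : n2 x = 1 := by
    have h1 : ‖hB.eigenvectorBasis i0‖ = 1 := hB.eigenvectorBasis.orthonormal.1 i0
    have h2 : ‖hB.eigenvectorBasis i0‖ ^ 2 = n2 x := by
      rw [EuclideanSpace.norm_sq_eq]
      rfl
    rw [← h2, h1, one_pow]
  have hBx : B *ᵥ x = (β : ℂ) • x := by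
    have h1 := hB.mulVec_eigenvectorBasis i0
    rw [← hx, ← hβ] at h1
    rw [h1]
    funext j
    simp [Complex.real_smul]
  have hr2 : 0 < r - 2 := by linarith
  have key : ∀ v, 1 ≤ ‖x v‖ ^ 2 * (1 + (r / (r - 2)) ^ 2) := by
    intro v
    set x' := cut v x with hx'
    have hdec : x = x' + x v • (Pi.single v (1:ℂ) : ι → ℂ) := by
      funext i
      rw [Pi.add_apply, Pi.smul_apply]
      by_cases hi : i = v
      · subst hi
        rw [hx', cut_self, Pi.single_eq_same]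
        simp
      · rw [hx', cut_ne hi, Pi.single_eq_of_ne hi]
        simp
    have h1 : (β : ℂ) • x' = cut v (B *ᵥ x') + x v • cut v (B *ᵥ (Pi.single v (1:ℂ) : ι → ℂ)) := by
      funext i
      rw [Pi.smul_apply, Pi.add_apply, Pi.smul_apply]
      by_cases hi : i = v
      · subst hi
        rw [hx', cut_self, cut_self, cut_self]
        simp
      · rw [hx', cut_ne hi, cut_ne hi, cut_ne hi]
        have h3 := congrFun hBx i
        rw [hdec, mulVec_add, mulVec_smul, Pi.add_apply, Pi.smul_apply, Pi.smul_apply,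
          Pi.add_apply, Pi.smul_apply, Pi.single_eq_of_ne hi, hx', cut_ne hi] at h3
        rw [← hx'] at h3 ⊢
        rw [h3]
        simp
    have h3 := n2_add_le (cut v (B *ᵥ x')) (x v • cut v (B *ᵥ (Pi.single v (1:ℂ) : ι → ℂ)))
    rw [← h1, n2_smul, n2_smul, Complex.norm_real, Real.norm_eq_abs, ← hrr,
      Real.sqrt_mul (by positivity), Real.sqrt_mul (by positivity), Real.sqrt_sq (by positivity),
      Real.sqrt_sq (by positivity)] at h3
    have h4 : Real.sqrt (n2 (cut v (B *ᵥ x'))) ≤ 2 * Real.sqrt (n2 x') := by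
      have h5 := hs v x' (cut_self v x)
      have h6 : (2:ℝ) * Real.sqrt (n2 x') = Real.sqrt (4 * n2 x') := by
        rw [Real.sqrt_mul (by norm_num)]
        congr 1
        rw [show (4:ℝ) = 2 ^ 2 by norm_num, Real.sqrt_sq (by norm_num)]
      rw [h6]
      exact Real.sqrt_le_sqrt h5
    have h5 : Real.sqrt (n2 (cut v (B *ᵥ (Pi.single v (1:ℂ) : ι → ℂ)))) ≤ r := by
      refine Real.sqrt_le_iff.mpr ⟨abs_nonneg _, (n2_cut_le _ _).trans ?_⟩
      have := n2_mulVec_le hB hr (Pi.single v (1:ℂ) : ι → ℂ)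
      rwa [n2_single, mul_one] at this
    set s := Real.sqrt (n2 x') with hs'
    have hs0 : 0 ≤ s := Real.sqrt_nonneg _
    have h6 : (r - 2) * s ≤ ‖x v‖ * r := by
      have h7 : ‖x v‖ * Real.sqrt (n2 (cut v (B *ᵥ (Pi.single v (1:ℂ) : ι → ℂ)))) ≤ ‖x v‖ * r := by
        gcongr
      linarith
    have h7 : s ≤ ‖x v‖ * (r / (r - 2)) := by
      rw [← mul_div_assoc, le_div_iff₀ hr2]
      linarith
    have h8 : n2 x' = s ^ 2 := (Real.sq_sqrt (n2_nonneg x')).symm
    have h9 : n2 x = ‖x v‖ ^ 2 + n2 x' := n2_cut v x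
    rw [hxn, h8] at h9
    have h10 : s ^ 2 ≤ (‖x v‖ * (r / (r - 2))) ^ 2 := pow_le_pow_left₀ hs0 h7 2
    rw [mul_pow] at h10
    linarith
  have hsum : ∑ v : ι, (1:ℝ) ≤ ∑ v, ‖x v‖ ^ 2 * (1 + (r / (r - 2)) ^ 2) :=
    Finset.sum_le_sum fun v _ => key v
  rw [← Finset.sum_mul, Finset.sum_const, Finset.card_univ, nsmul_eq_mul, mul_one] at hsum
  have h11 : ∑ v, ‖x v‖ ^ 2 = 1 := hxn
  rw [h11, one_mul] at hsum
  exact hsum

end

end Pool.Agent.HMB
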