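import Mathlib
import Pool.Agent.HMB.A04

/-!
# Rank one perturbations of real diagonal matrices
-/

open Matrix MeasureTheory Set Pool.Agent.H27Mahler

namespace Pool.Agent.HMB

section

variable {ι : Type*} [Fintype ι] [DecidableEq ι]

/-- abstract form of the pair inequality -/
theorem pair_abstract {a b : UnitAddCircle → ℂ} (hac : Continuous a) (hbc : Continuous b)
    (ha0 : ∀ᵐ s, a s ≠ 0) (hai : Integrable fun s => Real.log ‖a s‖) {M : ℝ}
    (hM : ∀ u : UnitAddCircle, ∫ s, Real.log ‖a s - cs u * b s‖ ≤ M) :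
    ∫ s, Real.log (‖a s‖ ^ 2 + ‖b s‖ ^ 2) ≤ 5 * Real.log 2 + 2 * M := by
  have hcont : Continuous fun p : UnitAddCircle × UnitAddCircle => a p.1 - cs p.2 * b p.1 :=
    (hac.comp continuous_fst).sub ((continuous_cs.comp continuous_snd).mul (hbc.comp continuous_fst))
  have hmeas : Measurable fun p : UnitAddCircle × UnitAddCircle =>
      Real.log ‖a p.1 - cs p.2 * b p.1‖ := Real.measurable_log.comp hcont.norm.measurable
  have hbd : ∀ {g : UnitAddCircle → ℂ}, Continuous g → ∃ C : ℝ, 1 ≤ C ∧ ∀ τ, ‖g τ‖ ≤ C := by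
    intro g hg
    obtain ⟨C, hC⟩ := (isCompact_range hg.norm).bddAbove
    exact ⟨max C 1, le_max_right _ _, fun τ => (hC ⟨τ, rfl⟩).trans (le_max_left _ _)⟩
  obtain ⟨C, hC1, hC⟩ := hbd hac
  obtain ⟨C', hC1', hC'⟩ := hbd hbc
  have hcs : ∀ u : UnitAddCircle, ‖cs u‖ ≤ 2 := by
    intro u
    refine (norm_add_le _ _).trans ?_
    rw [norm_inv, Circle.norm_coe]
    norm_num
  have hbound : ∀ s u, ‖a s - cs u * b s‖ ≤ C + 2 * C' := by
    intro s u
    refine (norm_sub_le _ _).trans ?_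
    rw [norm_mul]
    have h1 := hC s
    have h2 := hC' s
    have h3 := hcs u
    gcongr
  have hdouble : Integrable (fun p : UnitAddCircle × UnitAddCircle =>
      Real.log ‖a p.1 - cs p.2 * b p.1‖) ((volume : Measure UnitAddCircle).prod volume) := by
    refine (integrable_prod_iff hmeas.aestronglyMeasurable).mpr ⟨?_, ?_⟩
    · exact Filter.Eventually.of_forall fun s => integrable_pair_inner (a s) (b s)
    · have hdom : Integrable fun s : UnitAddCircle =>
          2 * Real.log (C + 2 * C') + 2 * Real.log 2 - Real.log ‖a s‖ :=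
        (integrable_const _).sub hai
      refine hdom.mono' hmeas.aestronglyMeasurable.norm.integral_prod_right' ?_
      filter_upwards [ha0] with s hs
      have h0 : 0 ≤ ∫ u, ‖Real.log ‖a s - cs u * b s‖‖ := integral_nonneg fun u => norm_nonneg _
      rw [Real.norm_eq_abs, abs_of_nonneg h0]
      have h1 : ∫ u, ‖Real.log ‖a s - cs u * b s‖‖ ≤
          ∫ u, (2 * Real.log (C + 2 * C') - Real.log ‖a s - cs u * b s‖) := by
        refine integral_mono (integrable_pair_inner (a s) (b s)).norm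
          ((integrable_const _).sub (integrable_pair_inner (a s) (b s))) fun u => ?_
        exact abs_log_le (norm_nonneg _) (hbound s u) (by linarith)
      have h2 : ∫ u, (2 * Real.log (C + 2 * C') - Real.log ‖a s - cs u * b s‖) =
          2 * Real.log (C + 2 * C') - ∫ u, Real.log ‖a s - cs u * b s‖ := by
        rw [integral_sub (integrable_const _) (integrable_pair_inner (a s) (b s)), integral_const,
          probReal_univ, one_smul]
      have h3 := pair_le_integral (a s) (b s) (fun h => hs h.1)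
      have h4 : Real.log ‖a s‖ ≤ Real.log (max ‖a s‖ ‖b s‖) :=
        Real.log_le_log (norm_pos_iff.mpr hs) (le_max_left _ _)
      linarith
  have hswap : ∫ s, ∫ u, Real.log ‖a s - cs u * b s‖ = ∫ u, ∫ s, Real.log ‖a s - cs u * b s‖ :=
    integral_integral_swap (f := fun s u => Real.log ‖a s - cs u * b s‖) hdouble
  have hint : Integrable fun s => ∫ u, Real.log ‖a s - cs u * b s‖ :=
    hdouble.integral_prod_left
  have hint2 : Integrable fun u => ∫ s, Real.log ‖a s - cs u * b s‖ :=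
    hdouble.integral_prod_right
  have hle : ∫ u, ∫ s, Real.log ‖a s - cs u * b s‖ ≤ M := by
    refine (integral_mono hint2 (integrable_const M) hM).trans ?_
    rw [integral_const, probReal_univ, one_smul]
  have hpi : Integrable fun s => Real.log (‖a s‖ ^ 2 + ‖b s‖ ^ 2) := by
    refine integrable_log_sq_add (C := C ^ 2 + C' ^ 2) hac.measurable hbc.measurable (fun s => ?_)
      hai ha0
    have h1 := hC s
    have h2 := hC' s
    gcongr
  have hpl : ∫ s, Real.log (‖a s‖ ^ 2 + ‖b s‖ ^ 2) ≤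
      ∫ s, (5 * Real.log 2 + 2 * ∫ u, Real.log ‖a s - cs u * b s‖) := by
    refine integral_mono_ae hpi ((integrable_const _).add (hint.const_mul 2)) ?_
    filter_upwards [ha0] with s hs
    have h3 := pair_le_integral (a s) (b s) (fun h => hs h.1)
    have hpos : 0 < max ‖a s‖ ‖b s‖ := lt_max_of_lt_left (norm_pos_iff.mpr hs)
    have h4 : ‖a s‖ ^ 2 + ‖b s‖ ^ 2 ≤ 2 * max ‖a s‖ ‖b s‖ ^ 2 := by
      have h5 : ‖a s‖ ^ 2 ≤ max ‖a s‖ ‖b s‖ ^ 2 :=
        pow_le_pow_left₀ (norm_nonneg _) (le_max_left _ _) 2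
      have h6 : ‖b s‖ ^ 2 ≤ max ‖a s‖ ‖b s‖ ^ 2 :=
        pow_le_pow_left₀ (norm_nonneg _) (le_max_right _ _) 2
      linarith
    have h5 : Real.log (‖a s‖ ^ 2 + ‖b s‖ ^ 2) ≤ Real.log 2 + 2 * Real.log (max ‖a s‖ ‖b s‖) := by
      have h6 : Real.log (2 * max ‖a s‖ ‖b s‖ ^ 2) = Real.log 2 + 2 * Real.log (max ‖a s‖ ‖b s‖) := by
        rw [Real.log_mul two_ne_zero (by positivity), Real.log_pow]
        push_cast
        ring
      rw [← h6]
      refine Real.log_le_log ?_ h4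
      have := norm_pos_iff.mpr hs
      positivity
    change Real.log (‖a s‖ ^ 2 + ‖b s‖ ^ 2) ≤ _
    linarith
  have hcomp : ∫ s, (5 * Real.log 2 + 2 * ∫ u, Real.log ‖a s - cs u * b s‖) =
      5 * Real.log 2 + 2 * ∫ s, ∫ u, Real.log ‖a s - cs u * b s‖ := by
    rw [integral_add (integrable_const _) (hint.const_mul 2), integral_const,
      probReal_univ, one_smul, integral_const_mul]
  rw [hcomp, hswap] at hpl
  linarith

/-- rank one perturbation -/
noncomputable def rk (B : Matrix ι ι ℂ) (y : ι → ℂ) (τ : ℂ) : Matrix ι ι ℂ :=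
  B + τ • vecMulVec y (star y)

theorem rk_isHermitian {B : Matrix ι ι ℂ} (hB : B.IsHermitian) (y : ι → ℂ) (τ : ℝ) :
    (rk B y τ).IsHermitian := by
  refine hB.add ?_
  rw [Matrix.IsHermitian, Matrix.conjTranspose_smul, Matrix.conjTranspose_vecMulVec, star_star]
  congr 1
  exact Complex.conj_ofReal τ

/-- the linear functional `z ↦ ⟨y, z⟩` -/
noncomputable def yl (y : ι → ℂ) : (ι → ℂ) →ₗ[ℂ] ℂ where
  toFun z := star y ⬝ᵥ z
  map_add' z w := dotProduct_add _ _ _
  map_smul' c z := by rw [dotProduct_smul, RingHom.id_apply]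

theorem rk_mulVec (B : Matrix ι ι ℂ) (y : ι → ℂ) (τ : ℂ) (z : ι → ℂ) :
    rk B y τ *ᵥ z = B *ᵥ z + (τ * yl y z) • y := by
  rw [rk, add_mulVec, smul_mulVec]
  congr 1
  funext i
  simp only [Pi.smul_apply, smul_eq_mul, mulVec, vecMulVec_apply, dotProduct, yl, LinearMap.coe_mk,
    AddHom.coe_mk, Finset.mul_sum, Finset.sum_mul]
  refine Finset.sum_congr rfl fun j _ => ?_
  ring

theorem qf_rk (B : Matrix ι ι ℂ) (y : ι → ℂ) (τ : ℂ) {z : ι → ℂ} (hz : yl y z = 0) :
    qf (rk B y τ) z = qf B z := by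
  rw [qf, qf, rk_mulVec, hz, mul_zero, zero_smul, add_zero]

theorem cnt_rk_le {B : Matrix ι ι ℂ} (hB : B.IsHermitian) (y : ι → ℂ) (τ : ℝ) (ε x : ℝ) :
    cnt (rk_isHermitian hB y τ) ε x ≤ cnt hB ε x + 1 := by
  classical
  by_contra hcon
  push Not at hcon
  set hB' := rk_isHermitian hB y τ with hhB'
  set p' : ι → Prop := fun k => x < ε * hB'.eigenvalues k with hp'
  set p : ι → Prop := fun i => x < ε * hB.eigenvalues i with hp
  set L : ({k // p' k} → ℂ) →ₗ[ℂ] ({i // p i} → ℂ) × ℂ :=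
    (LinearMap.pi fun i : {i // p i} => (ec hB (i : ι)).comp (vec hB' p')).prod
      ((yl y).comp (vec hB' p')) with hL
  have h1 : LinearMap.ker L ≠ ⊥ := by
    refine LinearMap.ker_ne_bot_of_finrank_lt ?_
    rw [Module.finrank_prod, Module.finrank_fintype_fun_eq_card,
      Module.finrank_fintype_fun_eq_card, Module.finrank_self]
    exact hcon
  obtain ⟨c, hc, hc0⟩ := (Submodule.ne_bot_iff _).mp h1
  rw [LinearMap.mem_ker] at hc
  set z := vec hB' p' c with hz
  have hz0 : z ≠ 0 := vec_ne_zero hB' p' hc0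
  have hyz : yl y z = 0 := congrArg Prod.snd hc
  have h2 : ε * qf B z ≤ x * n2 z := qf_le_of hB ε x z fun i hi =>
    congrFun (congrArg Prod.fst hc) ⟨i, hi⟩
  have h3 : x * n2 z < ε * qf (rk B y τ) z := lt_qf_of hB' ε x hz0 fun k hk => by
    rw [hz, ec_vec, dif_neg hk]
  rw [qf_rk B y τ hyz] at h3
  linarith

theorem norm_yl_le (y z : ι → ℂ) : ‖yl y z‖ ≤ Real.sqrt (n2 y) * Real.sqrt (n2 z) := by
  have h1 : yl y z = inner ℂ (WithLp.toLp 2 y : EuclideanSpace ℂ ι) (WithLp.toLp 2 z) := by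
    rw [EuclideanSpace.inner_eq_star_dotProduct, dotProduct_comm]
    rfl
  have h : ∀ w : ι → ℂ, Real.sqrt (n2 w) = ‖(WithLp.toLp 2 w : EuclideanSpace ℂ ι)‖ := by
    intro w
    rw [EuclideanSpace.norm_eq]
    rfl
  rw [h1, h, h]
  exact norm_inner_le_norm _ _

theorem eigenvalues_rk_le {B : Matrix ι ι ℂ} (hB : B.IsHermitian) {r : ℝ} (hr0 : 0 ≤ r)
    (hr : ∀ i, |hB.eigenvalues i| ≤ r) (y : ι → ℂ) (τ : ℝ) (i : ι) :
    |(rk_isHermitian hB y τ).eigenvalues i| ≤ r + |τ| * n2 y := by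
  set hP := rk_isHermitian hB y τ with hhP
  set u : ι → ℂ := ⇑(hP.eigenvectorBasis i) with hu
  have hun : n2 u = 1 := by
    have h1 : ‖hP.eigenvectorBasis i‖ = 1 := hP.eigenvectorBasis.orthonormal.1 i
    have h2 : ‖hP.eigenvectorBasis i‖ ^ 2 = n2 u := by
      rw [EuclideanSpace.norm_sq_eq]
      rfl
    rw [← h2, h1, one_pow]
  have h1 := hP.mulVec_eigenvectorBasis i
  rw [← hu] at h1
  have h2 := rk_mulVec B y τ u
  have h3 : Real.sqrt (n2 (rk B y τ *ᵥ u)) = |hP.eigenvalues i| := by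
    rw [h1]
    have h4 : (hP.eigenvalues i) • u = ((hP.eigenvalues i : ℝ) : ℂ) • u := by
      funext j
      simp [Complex.real_smul]
    rw [h4, n2_smul, hun, mul_one, Complex.norm_real, Real.norm_eq_abs, Real.sqrt_sq (abs_nonneg _)]
  have h5 : Real.sqrt (n2 (B *ᵥ u)) ≤ r := by
    have h6 := n2_mulVec_le hB hr u
    rw [hun, mul_one] at h6
    exact Real.sqrt_le_iff.mpr ⟨hr0, h6⟩
  have h6 : Real.sqrt (n2 (((τ : ℂ) * yl y u) • y)) ≤ |τ| * n2 y := by
    rw [n2_smul, Real.sqrt_mul (by positivity), Real.sqrt_sq (by positivity), norm_mul,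
      Complex.norm_real, Real.norm_eq_abs]
    have h7 := norm_yl_le y u
    rw [hun, Real.sqrt_one, mul_one] at h7
    have h8 : Real.sqrt (n2 y) * Real.sqrt (n2 y) = n2 y := Real.mul_self_sqrt (n2_nonneg y)
    calc |τ| * ‖yl y u‖ * Real.sqrt (n2 y) ≤ |τ| * Real.sqrt (n2 y) * Real.sqrt (n2 y) := by gcongr
      _ = |τ| * n2 y := by rw [mul_assoc, h8]
  have h7 := n2_add_le (B *ᵥ u) (((τ : ℂ) * yl y u) • y)
  rw [← h2, h3] at h7
  linarith

theorem GG_rk_le {B : Matrix ι ι ℂ} (hB : B.IsHermitian) {r : ℝ} (hr0 : 0 ≤ r)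
    (hr : ∀ i, |hB.eigenvalues i| ≤ r) (y : ι → ℂ) {τ : ℝ} (hτ : |τ| ≤ 2) :
    GG (rk B y τ) ≤ GG B + 2 * gg (r + 2 * n2 y) := by
  set hB' := rk_isHermitian hB y τ with hhB'
  have hn := n2_nonneg y
  have hR0 : 0 ≤ r + 2 * n2 y := by linarith
  have hR : ∀ i, |hB'.eigenvalues i| ≤ r + 2 * n2 y := fun i =>
    (eigenvalues_rk_le hB hr0 hr y τ i).trans (by nlinarith)
  have h1 : ∫ y' in Ioi (0:ℝ), ((cc hB y' : ℝ) + 2 * (if y' < gg (r + 2 * n2 y) then (1:ℝ) else 0)) =
      GG B + 2 * gg (r + 2 * n2 y) := by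
    rw [integral_add (integrableOn_cc hB) ((integrable_ind _).const_mul 2), integral_cc hB,
      integral_const_mul, integral_ind (gg_nonneg _)]
  rw [← h1, ← integral_cc hB']
  refine setIntegral_mono_on (integrableOn_cc hB')
    ((integrableOn_cc hB).add ((integrable_ind _).const_mul 2)) measurableSet_Ioi fun y' hy => ?_
  have hy0 : (0:ℝ) < y' := hy
  by_cases h : y' < gg (r + 2 * n2 y)
  · rw [if_pos h]
    have h2 := cnt_rk_le hB y τ 1 (2 * Real.cosh y')
    have h3 := cnt_rk_le hB y τ (-1) (2 * Real.cosh y')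
    have h4 : cc hB' y' ≤ cc hB y' + 2 := by
      unfold cc
      omega
    have h5 : (cc hB' y' : ℝ) ≤ (cc hB y' : ℝ) + 2 := by exact_mod_cast h4
    linarith
  · rw [if_neg h]
    have h2 : (cc hB' y' : ℝ) = 0 := by
      rw [cc_eq_sum hB' hy0]
      refine Finset.sum_eq_zero fun i _ => ?_
      rw [if_neg]
      intro h3
      apply h
      refine h3.trans_le (gg_mono ?_)
      rw [abs_of_nonneg hR0]
      exact hR i
    have h3 : (0:ℝ) ≤ (cc hB y' : ℝ) := Nat.cast_nonneg _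
    rw [h2]
    linarith

end

end Pool.Agent.HMB
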