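import Mathlib
import Pool.Agent.HMB.A06

/-!
# Real-rooted polynomials and interlacing partners
-/

open Matrix MeasureTheory Set Pool.Agent.H27Mahler

namespace Pool.Agent.HMB

section

variable {ι : Type*} [Fintype ι] [DecidableEq ι]

/-- the real-rooted polynomial with roots `lam` -/
noncomputable def tp (lam : ι → ℝ) (x : ℂ) : ℂ := ∏ i, (x - lam i)

/-- the polynomial `tp * ∑ c_i / (x - lam_i)` -/
noncomputable def np (lam c : ι → ℝ) (x : ℂ) : ℂ :=
  ∑ i, (c i : ℂ) * ∏ j ∈ Finset.univ.erase i, (x - lam j)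

/-- the diagonal matrix -/
noncomputable def dg (lam : ι → ℝ) : Matrix ι ι ℂ := Matrix.diagonal fun i => (lam i : ℂ)

theorem dg_isHermitian (lam : ι → ℝ) : (dg lam).IsHermitian := by
  rw [Matrix.IsHermitian, dg, Matrix.diagonal_conjTranspose]
  congr 1
  funext i
  exact Complex.conj_ofReal _

theorem det_dg (lam : ι → ℝ) (x : ℂ) : (x • (1 : Matrix ι ι ℂ) - dg lam).det = tp lam x := by
  have h : x • (1 : Matrix ι ι ℂ) - dg lam = Matrix.diagonal fun i => x - (lam i : ℂ) := by
    rw [dg, Matrix.smul_one_eq_diagonal, Matrix.diagonal_sub]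
  rw [h, Matrix.det_diagonal, tp]

theorem det_rk_dg (lam c : ι → ℝ) (hc : ∀ i, 0 ≤ c i) (x τ : ℂ) (hx : ∀ i, x - lam i ≠ 0) :
    (x • (1 : Matrix ι ι ℂ) - rk (dg lam) (fun i => (Real.sqrt (c i) : ℂ)) τ).det =
      tp lam x - τ * np lam c x := by
  set y : ι → ℂ := fun i => (Real.sqrt (c i) : ℂ) with hy
  set u : ι → ℂ := fun i => -τ * y i / (x - lam i) with hu
  have h1 : x • (1 : Matrix ι ι ℂ) - rk (dg lam) y τ =
      Matrix.diagonal (fun i => x - (lam i : ℂ)) *
        (1 + replicateCol Unit u * replicateRow Unit (star y)) := by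
    ext i j
    rw [Matrix.diagonal_mul]
    simp only [rk, dg, Matrix.sub_apply, Matrix.smul_apply, Matrix.add_apply, smul_eq_mul,
      vecMulVec_apply, Matrix.mul_apply, replicateCol_apply, replicateRow_apply, Finset.univ_unique,
      Finset.sum_const, Finset.card_singleton, one_smul]
    have h2 : (x - lam i) * (u i * star y j) = -τ * (y i * star y j) := by
      rw [hu]
      have := hx i
      field_simp
    rw [mul_add, h2]
    by_cases hij : i = j
    · subst hij
      simp
      ring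
    · simp [Matrix.diagonal_apply_ne _ hij, Matrix.one_apply_ne hij]
  rw [h1, Matrix.det_mul, Matrix.det_diagonal, det_one_add_replicateCol_mul_replicateRow, tp]
  have h2 : star y ⬝ᵥ u = ∑ i, -τ * ((c i : ℂ) / (x - lam i)) := by
    rw [dotProduct]
    refine Finset.sum_congr rfl fun i _ => ?_
    have h3 : star y i * y i = (c i : ℂ) := by
      rw [Pi.star_apply, hy]
      have h4 : star ((Real.sqrt (c i) : ℝ) : ℂ) = ((Real.sqrt (c i) : ℝ) : ℂ) :=
        Complex.conj_ofReal _
      change star ((Real.sqrt (c i) : ℝ) : ℂ) * ((Real.sqrt (c i) : ℝ) : ℂ) = _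
      rw [h4, ← Complex.ofReal_mul, Real.mul_self_sqrt (hc i)]
    rw [hu, ← h3]
    ring
  rw [h2, mul_add, mul_one, Finset.mul_sum, np, Finset.mul_sum, sub_eq_add_neg, ← Finset.sum_neg_distrib]
  congr 1
  refine Finset.sum_congr rfl fun i _ => ?_
  rw [← Finset.mul_prod_erase Finset.univ (fun j => x - (lam j : ℂ)) (Finset.mem_univ i)]
  have := hx i
  field_simp

theorem eigenvalues_dg (lam : ι → ℝ) (i : ι) :
    ∃ j, (dg_isHermitian lam).eigenvalues i = lam j := by
  have h1 := det_eq_prod (dg_isHermitian lam) ((dg_isHermitian lam).eigenvalues i : ℂ)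
  rw [Finset.prod_eq_zero (Finset.mem_univ i) (sub_self _), det_dg, tp] at h1
  obtain ⟨j, -, hj⟩ := Finset.prod_eq_zero_iff.mp h1
  refine ⟨j, ?_⟩
  have := sub_eq_zero.mp hj
  exact_mod_cast this

theorem continuous_tp (lam : ι → ℝ) : Continuous fun τ => tp lam (cs τ) := by
  unfold tp
  exact continuous_finsetProd _ fun i _ => continuous_cs.sub continuous_const

theorem continuous_np (lam c : ι → ℝ) : Continuous fun τ => np lam c (cs τ) := by
  unfold np
  exact continuous_finsetSum _ fun i _ => continuous_const.mul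
    (continuous_finsetProd _ fun j _ => continuous_cs.sub continuous_const)

theorem pair_interlaced (lam c : ι → ℝ) (hc : ∀ i, 0 ≤ c i) {Bm r : ℝ} (hcs : ∑ i, c i ≤ Bm)
    (hr0 : 0 ≤ r) (hr : ∀ i, |lam i| ≤ r) :
    ∫ τ, Real.log (‖tp lam (cs τ)‖ ^ 2 + ‖np lam c (cs τ)‖ ^ 2) ≤
      5 * Real.log 2 + 2 * (GG (dg lam) + 2 * gg (r + 2 * Bm)) := by
  set hB := dg_isHermitian lam with hhB
  set y : ι → ℂ := fun i => (Real.sqrt (c i) : ℂ) with hy
  have hn : n2 y = ∑ i, c i := by
    rw [n2]
    refine Finset.sum_congr rfl fun i _ => ?_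
    change ‖((Real.sqrt (c i) : ℝ) : ℂ)‖ ^ 2 = _
    rw [Complex.norm_real, Real.norm_eq_abs, abs_of_nonneg (Real.sqrt_nonneg _), Real.sq_sqrt (hc i)]
  have hr' : ∀ i, |hB.eigenvalues i| ≤ r := by
    intro i
    obtain ⟨j, hj⟩ := eigenvalues_dg lam i
    rw [hj]
    exact hr j
  have hne : ∀ᵐ τ : UnitAddCircle, ∀ i, cs τ - lam i ≠ 0 := ae_all_iff.mpr fun i => ae_cs_sub_ne _
  refine pair_abstract (continuous_tp lam) (continuous_np lam c) ?_ ?_ fun u => ?_
  · filter_upwards [norm_det_ae hB] with s hs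
    rw [← det_dg]
    exact hs
  · have := integrable_log_det hB
    simp_rw [det_dg] at this
    exact this
  · have h1 : ∫ s, Real.log ‖tp lam (cs s) - cs u * np lam c (cs s)‖ =
        GG (rk (dg lam) y ((cs u).re : ℝ)) := by
      rw [GG]
      refine integral_congr_ae ?_
      filter_upwards [hne] with s hs
      rw [det_rk_dg lam c hc _ _ hs, cs_real]
    rw [h1]
    refine (GG_rk_le hB hr0 hr' y (abs_cs_le u)).trans ?_
    have h2 : gg (r + 2 * n2 y) ≤ gg (r + 2 * Bm) := by
      refine gg_mono ?_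
      have h3 : 0 ≤ n2 y := n2_nonneg y
      rw [abs_of_nonneg (by linarith), abs_of_nonneg (by linarith)]
      linarith
    linarith

theorem gg_add_le {r b : ℝ} (hr : 0 ≤ r) (hb : 0 ≤ b) : gg (r + b) ≤ gg r + Real.log (2 + b) := by
  have h0 : 0 ≤ Real.log (2 + b) := Real.log_nonneg (by linarith)
  rcases le_or_gt (r + b) 2 with h | h
  · rw [gg_eq_zero (by rw [abs_of_nonneg (by linarith)]; exact h)]
    linarith [gg_nonneg r]
  · have h1 : gg (r + b) ≤ Real.log |r + b| := gg_le_log (by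
      rw [abs_of_nonneg (by linarith)]
      linarith)
    rw [abs_of_nonneg (by linarith : (0:ℝ) ≤ r + b)] at h1
    refine h1.trans ?_
    have h2 : r + b ≤ (2 + b) * Real.exp (gg r) := by
      have h3 := abs_le_exp_gg r
      rw [abs_of_nonneg hr] at h3
      have h4 : 1 ≤ Real.exp (gg r) := Real.one_le_exp (gg_nonneg r)
      nlinarith
    have h3 : Real.log ((2 + b) * Real.exp (gg r)) = gg r + Real.log (2 + b) := by
      rw [Real.log_mul (by linarith) (Real.exp_pos _).ne', Real.log_exp]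
      ring
    rw [← h3]
    exact Real.log_le_log (by linarith) h2

theorem GG_dg (lam : ι → ℝ) : GG (dg lam) = ∫ τ, Real.log ‖tp lam (cs τ)‖ := by
  rw [GG]
  simp_rw [det_dg]

/-- bound in terms of the measure alone -/
theorem pair_interlaced' (lam c : ι → ℝ) (hc : ∀ i, 0 ≤ c i) {Bm : ℝ} (hcs : ∑ i, c i ≤ Bm) :
    ∫ τ, Real.log (‖tp lam (cs τ)‖ ^ 2 + ‖np lam c (cs τ)‖ ^ 2) ≤
      5 * Real.log 2 + 4 * Real.log (2 + 2 * Bm) + 6 * ∫ τ, Real.log ‖tp lam (cs τ)‖ := by
  have hB0 : 0 ≤ Bm := (Finset.sum_nonneg fun i _ => hc i).trans hcs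
  have hG := GG_nonneg (dg_isHermitian lam)
  have hl0 : 0 ≤ Real.log (2 + 2 * Bm) := Real.log_nonneg (by linarith)
  rw [← GG_dg]
  rcases isEmpty_or_nonempty ι with h | h
  · have h1 := pair_interlaced lam c hc hcs le_rfl (fun i => h.elim i)
    have h2 := gg_add_le (r := 0) le_rfl (b := 2 * Bm) (by linarith)
    have h3 : gg 0 = 0 := gg_eq_zero (by rw [abs_zero]; norm_num)
    rw [h3] at h2
    linarith
  · obtain ⟨i0, hi0⟩ : ∃ i0, ∀ i, |lam i| ≤ |lam i0| := by
      obtain ⟨i0, -, h⟩ := Finset.exists_max_image Finset.univ (fun i => |lam i|)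
        Finset.univ_nonempty
      exact ⟨i0, fun i => h i (Finset.mem_univ i)⟩
    have h1 := pair_interlaced lam c hc hcs (abs_nonneg _) hi0
    have h2 := gg_add_le (r := |lam i0|) (abs_nonneg _) (b := 2 * Bm) (by linarith)
    have h3 : gg |lam i0| ≤ GG (dg lam) := by
      -- the integral of `log |cs - lam|` over the roots
      have h4 : GG (dg lam) = ∑ i, gg (lam i) := by
        rw [GG_dg]
        have hne : ∀ᵐ τ : UnitAddCircle, ∀ i, cs τ - lam i ≠ 0 :=
          ae_all_iff.mpr fun i => ae_cs_sub_ne _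
        have h5 : (fun τ : UnitAddCircle => Real.log ‖tp lam (cs τ)‖) =ᵐ[volume]
            fun τ => ∑ i, Real.log ‖cs τ - lam i‖ := by
          filter_upwards [hne] with τ hτ
          rw [tp, norm_prod, Real.log_prod fun i _ => norm_ne_zero_iff.mpr (hτ i)]
        rw [integral_congr_ae h5, integral_finsetSum Finset.univ fun i _ => integrable_cs_sub (lam i)]
        simp_rw [integral_cs_sub]
      rw [h4]
      have h5 : gg |lam i0| = gg (lam i0) := le_antisymm (gg_mono (by rw [abs_abs]))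
        (gg_mono (by rw [abs_abs]))
      rw [h5]
      exact Finset.single_le_sum (f := fun i => gg (lam i)) (fun j _ => gg_nonneg _)
        (Finset.mem_univ i0)
    linarith

end

end Pool.Agent.HMB
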