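import Mathlib

/-!
# A packing argument for monotone additive functions on sets of vertices
-/

namespace Pool.Agent.HMB

variable {V : Type*} [Fintype V] [DecidableEq V]

/-- a minimal subset with nonzero value -/
theorem exists_minimal_sub (m : Finset V → ℝ) : ∀ (n : ℕ) (W : Finset V), W.card ≤ n → m W ≠ 0 →
    ∃ W' ⊆ W, m W' ≠ 0 ∧ ∀ v ∈ W', m (W'.erase v) = 0 := by
  intro n
  induction n with
  | zero =>
    intro W hW h
    have : W = ∅ := Finset.card_eq_zero.mp (by omega)
    subst this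
    exact ⟨∅, subset_rfl, h, by simp⟩
  | succ n ih =>
    intro W hW h
    by_cases hv : ∀ v ∈ W, m (W.erase v) = 0
    · exact ⟨W, subset_rfl, h, hv⟩
    · push Not at hv
      obtain ⟨v, hv, h1⟩ := hv
      obtain ⟨W', h2, h3, h4⟩ := ih (W.erase v) (by
        rw [Finset.card_erase_of_mem hv]
        omega) h1
      exact ⟨W', h2.trans (Finset.erase_subset _ _), h3, h4⟩

theorem packing {m : Finset V → ℝ} {r : V → V → Prop} {γ X : ℝ} {n0 D : ℕ}
    (h0 : m ∅ = 0) (hmono : ∀ W W' : Finset V, W ⊆ W' → m W ≤ m W')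
    (hadd : ∀ W W' : Finset V, Disjoint W W' → (∀ u ∈ W, ∀ v ∈ W', ¬ r u v) →
      m W + m W' ≤ m (W ∪ W'))
    (hγ : 0 < γ)
    (hmin : ∀ W : Finset V, m W ≠ 0 → (∀ v ∈ W, m (W.erase v) = 0) → W.card ≤ n0 ∧ γ ≤ m W)
    (hdeg : ∀ u, ∃ N : Finset V, N.card ≤ D ∧ ∀ v, r u v → v ∈ N)
    (hX : m Finset.univ ≤ X) :
    ∃ U : Finset V, U.card ≤ ⌊X / γ⌋₊ * (n0 * (D + 1)) ∧ m Uᶜ = 0 := by
  classical
  choose N hN1 hN2 using hdeg
  have step : ∀ R : ℕ, (∃ U : Finset V, U.card ≤ R * (n0 * (D + 1)) ∧ m Uᶜ = 0) ∨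
      ∃ P : Finset V, P.card ≤ (R + 1) * n0 ∧ (R + 1 : ℝ) * γ ≤ m P := by
    intro R
    have main : ∀ (R : ℕ) (P : Finset V), P.card ≤ R * n0 → (R : ℝ) * γ ≤ m P →
        (∃ U : Finset V, U.card ≤ R * (n0 * (D + 1)) ∧ m Uᶜ = 0) ∨
        ∃ P : Finset V, P.card ≤ (R + 1) * n0 ∧ (R + 1 : ℝ) * γ ≤ m P := by
      intro R P hP hPm
      set U : Finset V := P ∪ P.biUnion N with hU
      have hUc : U.card ≤ R * (n0 * (D + 1)) := by
        have h1 : (P.biUnion N).card ≤ P.card * D := Finset.card_biUnion_le_card_mul _ _ _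
          fun u _ => hN1 u
        have h2 : U.card ≤ P.card + P.card * D :=
          (Finset.card_union_le _ _).trans (by omega)
        calc U.card ≤ P.card + P.card * D := h2
          _ = P.card * (D + 1) := by ring
          _ ≤ (R * n0) * (D + 1) := Nat.mul_le_mul_right _ hP
          _ = R * (n0 * (D + 1)) := by ring
      by_cases hz : m Uᶜ = 0
      · exact Or.inl ⟨U, hUc, hz⟩
      · right
        obtain ⟨W, hW, hW1, hW2⟩ := exists_minimal_sub m _ _ le_rfl hz
        obtain ⟨hW3, hW4⟩ := hmin W hW1 hW2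
        have hdis : Disjoint P W := by
          rw [Finset.disjoint_left]
          intro v hv hvW
          have := Finset.mem_compl.mp (hW hvW)
          exact this (Finset.mem_union_left _ hv)
        have hnon : ∀ u ∈ P, ∀ v ∈ W, ¬ r u v := by
          intro u hu v hv huv
          have := Finset.mem_compl.mp (hW hv)
          exact this (Finset.mem_union_right _ (Finset.mem_biUnion.mpr ⟨u, hu, hN2 u v huv⟩))
        refine ⟨P ∪ W, (Finset.card_union_le _ _).trans ?_, ?_⟩
        · calc P.card + W.card ≤ R * n0 + n0 := by omega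
            _ = (R + 1) * n0 := by ring
        · have h3 := hadd P W hdis hnon
          linarith
    induction R with
    | zero =>
      exact main 0 ∅ (by simp) (by rw [h0]; simp)
    | succ R ih =>
      rcases ih with ⟨U, hU1, hU2⟩ | ⟨P, hP1, hP2⟩
      · left
        refine ⟨U, hU1.trans (Nat.mul_le_mul_right _ (by omega)), hU2⟩
      · exact main (R + 1) P hP1 (by push_cast; exact hP2)
  rcases step ⌊X / γ⌋₊ with h | ⟨P, hP1, hP2⟩
  · exact h
  · exfalso
    have h1 : m P ≤ X := (hmono P Finset.univ (Finset.subset_univ _)).trans hX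
    have h2 : X / γ < ⌊X / γ⌋₊ + 1 := Nat.lt_floor_add_one _
    rw [div_lt_iff₀ hγ] at h2
    linarith

end Pool.Agent.HMB
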