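import Mathlib
import Pool.Agent.H27Mahler.Final
import Pool.Agent.HMB.A05

/-!
# Families of Hermitian matrices over the torus
-/

open Matrix MeasureTheory Set Pool.Agent.H27Mahler

namespace Pool.Agent.HMB

/-- principal submatrix -/
def sub {ι : Type*} (B : Matrix ι ι ℂ) (W : Finset ι) : Matrix {x // x ∈ W} {x // x ∈ W} ℂ :=
  B.submatrix Subtype.val Subtype.val

/-- Hermitian matrix function on the torus with integral principal characteristic polynomials -/
structure HFam (K : ℕ) (ι : Type*) [Fintype ι] [DecidableEq ι] where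
  /-- the index of the variable `z` in `x = z + 1/z` -/
  w : Fin K
  /-- the matrices -/
  A : Tor (Fin K) → Matrix ι ι ℂ
  herm : ∀ t, (A t).IsHermitian
  indep : ∀ t τ, A (shear (Pi.single w 1) (t, τ)) = A t
  /-- characteristic polynomials of principal submatrices -/
  F : Finset ι → MvPolynomial (Fin K) ℤ
  hF : ∀ W t, ‖ev t (F W)‖ = ‖(cs (t w) • (1 : Matrix {x // x ∈ W} {x // x ∈ W} ℂ) - sub (A t) W).det‖
  /-- squares of the absolute values of the entries -/
  N : ι → ι → MvPolynomial (Fin K) ℤ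
  hN : ∀ u v t, ‖ev t (N u v)‖ = ‖A t u v‖ ^ 2

section

variable {K : ℕ} {ι : Type*} [Fintype ι] [DecidableEq ι] (H : HFam K ι)

theorem sub_herm {B : Matrix ι ι ℂ} (hB : B.IsHermitian) (W : Finset ι) : (sub B W).IsHermitian :=
  hB.submatrix _

/-- inclusion -/
def incl {W W' : Finset ι} (h : W ⊆ W') : {x // x ∈ W} → {x // x ∈ W'} := fun x => ⟨x, h x.2⟩

omit [Fintype ι] [DecidableEq ι] in
theorem incl_injective {W W' : Finset ι} (h : W ⊆ W') : Function.Injective (incl h) := by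
  intro a b hab
  have := congrArg Subtype.val hab
  exact Subtype.ext this

omit [Fintype ι] [DecidableEq ι] in
theorem sub_incl (B : Matrix ι ι ℂ) {W W' : Finset ι} (h : W ⊆ W') :
    (sub B W').submatrix (incl h) (incl h) = sub B W := rfl

omit [Fintype ι] in
theorem off_erase {W : Finset ι} {v : ι} (hv : v ∈ W) :
    Off (incl (W.erase_subset v)) (⟨v, hv⟩ : {x // x ∈ W}) := by
  refine ⟨incl_injective _, fun i => ?_⟩
  constructor
  · rintro ⟨k, rfl⟩ h
    have := congrArg Subtype.val h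
    exact Finset.ne_of_mem_erase k.2 this
  · intro h
    have hne : (i : ι) ≠ v := fun h' => h (Subtype.ext h')
    exact ⟨⟨i, Finset.mem_erase.mpr ⟨hne, i.2⟩⟩, rfl⟩

namespace HFam

theorem shear_w (t : Tor (Fin K)) (τ : UnitAddCircle) :
    shear (Pi.single H.w 1) (t, τ) H.w = t H.w + τ := by
  rw [shear_apply, Pi.single_eq_same, one_smul]

theorem norm_ev_shear' (W : Finset ι) (t : Tor (Fin K)) (τ : UnitAddCircle) :
    ‖ev (shear (Pi.single H.w 1) (t, τ)) (H.F W)‖ =
      ‖(cs (t H.w + τ) • (1 : Matrix {x // x ∈ W} {x // x ∈ W} ℂ) - sub (H.A t) W).det‖ := by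
  rw [H.hF, H.shear_w, H.indep]

theorem F_ne_zero (W : Finset ι) : H.F W ≠ 0 := by
  intro h
  obtain ⟨τ, hτ⟩ := (norm_det_ae (sub_herm (H.herm 0) W)).exists
  have h1 := H.norm_ev_shear' W 0 τ
  rw [h, map_zero, norm_zero, Pi.zero_apply, zero_add] at h1
  exact hτ (norm_eq_zero.mp h1.symm)

theorem slice_GG (W : Finset ι) (t : Tor (Fin K)) :
    ∫ τ : UnitAddCircle, Real.log ‖ev (shear (Pi.single H.w 1) (t, τ)) (H.F W)‖ =
      GG (sub (H.A t) W) := by
  simp_rw [H.norm_ev_shear']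
  exact integral_add_left_eq_self (fun τ : UnitAddCircle =>
    Real.log ‖(cs τ • (1 : Matrix {x // x ∈ W} {x // x ∈ W} ℂ) - sub (H.A t) W).det‖) (t H.w)

theorem mm_eq (W : Finset ι) : mm (H.F W) = ∫ t, GG (sub (H.A t) W) := by
  rw [mm, integral_eq_shear (Pi.single H.w 1) _ (integrable_log_ev (H.F_ne_zero W))]
  simp_rw [H.slice_GG]

theorem integrable_GG (W : Finset ι) : Integrable fun t => GG (sub (H.A t) W) := by
  have := integrable_shear_left (Pi.single H.w 1) _ (integrable_log_ev (H.F_ne_zero W))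
  simp_rw [H.slice_GG] at this
  exact this

theorem LL_eq (W W' : Finset ι) : LL (H.F W) (H.F W') =
    ∫ t, PL (sub (H.A t) W) (sub (H.A t) W') := by
  rw [LL, integral_eq_shear (Pi.single H.w 1) _ (integrable_LL (H.F_ne_zero W) _)]
  congr 1
  funext t
  simp_rw [H.norm_ev_shear']
  exact integral_add_left_eq_self (fun τ : UnitAddCircle =>
    Real.log (‖(cs τ • (1 : Matrix {x // x ∈ W} {x // x ∈ W} ℂ) - sub (H.A t) W).det‖ ^ 2 +
      ‖(cs τ • (1 : Matrix {x // x ∈ W'} {x // x ∈ W'} ℂ) - sub (H.A t) W').det‖ ^ 2)) (t H.w)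

theorem integrable_PL (W W' : Finset ι) :
    Integrable fun t => PL (sub (H.A t) W) (sub (H.A t) W') := by
  have := integrable_shear_left (Pi.single H.w 1) _ (integrable_LL (H.F_ne_zero W) (H.F W'))
  have h2 : (fun t => PL (sub (H.A t) W) (sub (H.A t) W')) = fun t : Tor (Fin K) =>
      ∫ τ : UnitAddCircle, Real.log (‖ev (shear (Pi.single H.w 1) (t, τ)) (H.F W)‖ ^ 2 +
        ‖ev (shear (Pi.single H.w 1) (t, τ)) (H.F W')‖ ^ 2) := by
    funext t
    simp_rw [H.norm_ev_shear']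
    exact (integral_add_left_eq_self (fun τ : UnitAddCircle =>
      Real.log (‖(cs τ • (1 : Matrix {x // x ∈ W} {x // x ∈ W} ℂ) - sub (H.A t) W).det‖ ^ 2 +
        ‖(cs τ • (1 : Matrix {x // x ∈ W'} {x // x ∈ W'} ℂ) - sub (H.A t) W').det‖ ^ 2))
      (t H.w)).symm
  rw [h2]
  exact this

theorem mm_mono {W W' : Finset ι} (h : W ⊆ W') : mm (H.F W) ≤ mm (H.F W') := by
  rw [H.mm_eq, H.mm_eq]
  refine integral_mono (H.integrable_GG W) (H.integrable_GG W') fun t => ?_
  exact GG_submatrix_le (incl_injective h) (sub_herm (H.herm t) W')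

theorem mm_empty : mm (H.F ∅) = 0 := by
  rw [mm]
  have : ∀ t, Real.log ‖ev t (H.F ∅)‖ = 0 := by
    intro t
    rw [H.hF, Matrix.det_isEmpty, norm_one, Real.log_one]
  simp_rw [this]
  simp

theorem LL_erase_le {W : Finset ι} {v : ι} (hv : v ∈ W) :
    LL (H.F W) (H.F (W.erase v)) ≤ 13 * Real.log 2 + 6 * mm (H.F W) := by
  rw [H.LL_eq, H.mm_eq]
  have h1 : 13 * Real.log 2 + 6 * ∫ t, GG (sub (H.A t) W) =
      ∫ t, (13 * Real.log 2 + 6 * GG (sub (H.A t) W)) := by
    rw [integral_add (integrable_const _) ((H.integrable_GG W).const_mul 6), integral_const,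
      probReal_univ, one_smul, integral_const_mul]
  rw [h1]
  refine integral_mono (H.integrable_PL _ _)
    ((integrable_const _).add ((H.integrable_GG W).const_mul 6)) fun t => ?_
  have hB := sub_herm (H.herm t) W
  have : Nonempty {x // x ∈ W} := ⟨⟨v, hv⟩⟩
  obtain ⟨i0, hi0⟩ := exists_rad hB
  have h2 := PL_le (off_erase hv) hB (abs_nonneg _) hi0
  have h3 : gg |hB.eigenvalues i0| ≤ GG (sub (H.A t) W) := by
    refine (gg_mono ?_).trans (gg_le_GG hB i0)
    rw [abs_abs]
  rw [sub_incl] at h2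
  change PL (sub (H.A t) W) (sub (H.A t) (W.erase v)) ≤ 13 * Real.log 2 + 6 * GG (sub (H.A t) W)
  linarith

theorem A_eq_zero {u v : ι} (h : H.N u v = 0) (t : Tor (Fin K)) : H.A t u v = 0 := by
  have h1 := H.hN u v t
  rw [h, map_zero, norm_zero] at h1
  exact norm_eq_zero.mp (pow_eq_zero_iff two_ne_zero |>.mp h1.symm)

theorem det_union {W W' : Finset ι} (hd : Disjoint W W') (hn : ∀ u ∈ W, ∀ v ∈ W', H.N u v = 0)
    (t : Tor (Fin K)) (c : ℂ) :
    (c • (1 : Matrix {x // x ∈ W ∪ W'} {x // x ∈ W ∪ W'} ℂ) - sub (H.A t) (W ∪ W')).det =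
      (c • (1 : Matrix {x // x ∈ W} {x // x ∈ W} ℂ) - sub (H.A t) W).det *
      (c • (1 : Matrix {x // x ∈ W'} {x // x ∈ W'} ℂ) - sub (H.A t) W').det := by
  set e := Equiv.Finset.union W W' hd with he
  rw [← Matrix.det_submatrix_equiv_self e]
  have h0 : ∀ u ∈ W, ∀ v ∈ W', H.A t u v = 0 ∧ H.A t v u = 0 := by
    intro u hu v hv
    have h1 := H.A_eq_zero (hn u hu v hv) t
    refine ⟨h1, ?_⟩
    have h2 := (H.herm t).apply v u
    rw [h1, star_zero] at h2
    exact h2.symm
  have h1 : (c • (1 : Matrix {x // x ∈ W ∪ W'} {x // x ∈ W ∪ W'} ℂ) -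
      sub (H.A t) (W ∪ W')).submatrix e e =
      Matrix.fromBlocks (c • (1 : Matrix {x // x ∈ W} {x // x ∈ W} ℂ) - sub (H.A t) W) 0 0
        (c • (1 : Matrix {x // x ∈ W'} {x // x ∈ W'} ℂ) - sub (H.A t) W') := by
    ext (a | a) (b | b)
    · simp only [submatrix_apply, he, Equiv.Finset.union_inl, Matrix.sub_apply, Matrix.smul_apply,
        Matrix.one_apply, Matrix.fromBlocks_apply₁₁, sub, Subtype.mk.injEq, Subtype.ext_iff]
    · have hne : (a : ι) ≠ b := fun h => Finset.disjoint_left.mp hd a.2 (h ▸ b.2)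
      simp only [submatrix_apply, he, Equiv.Finset.union_inl, Equiv.Finset.union_inr,
        Matrix.sub_apply, Matrix.smul_apply, Matrix.one_apply, Matrix.fromBlocks_apply₁₂, sub,
        Subtype.mk.injEq, Matrix.zero_apply]
      rw [if_neg hne, (h0 a a.2 b b.2).1]
      simp
    · have hne : (a : ι) ≠ b := fun h => Finset.disjoint_left.mp hd b.2 (h ▸ a.2)
      simp only [submatrix_apply, he, Equiv.Finset.union_inl, Equiv.Finset.union_inr,
        Matrix.sub_apply, Matrix.smul_apply, Matrix.one_apply, Matrix.fromBlocks_apply₂₁, sub,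
        Subtype.mk.injEq, Matrix.zero_apply]
      rw [if_neg hne, (h0 b b.2 a a.2).2]
      simp
    · simp only [submatrix_apply, he, Equiv.Finset.union_inr, Matrix.sub_apply, Matrix.smul_apply,
        Matrix.one_apply, Matrix.fromBlocks_apply₂₂, sub, Subtype.mk.injEq, Subtype.ext_iff]
  rw [h1, Matrix.det_fromBlocks_zero₂₁]

theorem mm_union {W W' : Finset ι} (hd : Disjoint W W') (hn : ∀ u ∈ W, ∀ v ∈ W', H.N u v = 0) :
    mm (H.F W) + mm (H.F W') ≤ mm (H.F (W ∪ W')) := by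
  rw [← mm_mul (H.F_ne_zero W) (H.F_ne_zero W')]
  refine le_of_eq ?_
  rw [mm, mm]
  congr 1
  funext t
  rw [map_mul, norm_mul, H.hF, H.hF, H.hF, H.det_union hd hn, norm_mul]

end HFam

end

end Pool.Agent.HMB
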