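import Mathlib
import Pool.Agent.NRG.G10Class
import Pool.Agent.HMB.B01
import Pool.Agent.HMB.B02

/-!
# The measure of a Hermitian family lies in one closed set
-/

open Matrix MeasureTheory Set Pool.Agent.H27Mahler Pool.Agent.NRG

namespace Pool.Agent.HMB

section

variable {K : ℕ} {ι : Type*} [Fintype ι] [DecidableEq ι]

/-- pairs whose second member has measure one -/
theorem mem_SS_of_pair {F G : MvPolynomial (Fin K) ℤ} (hF : F ≠ 0) (hG : G ≠ 0) (h0 : mm G = 0)
    {c : ℝ} (hc : LL F G ≤ c) : mm F ∈ SS c := by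
  classical
  let _ : NormalizationMonoid (MvPolynomial (Fin K) ℤ) :=
    (inferInstance : Nonempty (NormalizationMonoid (MvPolynomial (Fin K) ℤ))).some
  let _ : GCDMonoid (MvPolynomial (Fin K) ℤ) := UniqueFactorizationMonoid.toGCDMonoid _
  set D := gcd F G with hD
  obtain ⟨P, hP⟩ := gcd_dvd_left F G
  obtain ⟨Q, hQ⟩ := gcd_dvd_right F G
  rw [← hD] at hP hQ
  have hD0 : D ≠ 0 := fun h => hF (by rw [hP, h, zero_mul])
  have hP0 : P ≠ 0 := fun h => hF (by rw [hP, h, mul_zero])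
  have hQ0 : Q ≠ 0 := fun h => hG (by rw [hQ, h, mul_zero])
  have hrel : IsRelPrime P Q := by
    intro d hdP hdQ
    obtain ⟨P', rfl⟩ := hdP
    obtain ⟨Q', rfl⟩ := hdQ
    have h1 : D * d ∣ D := by
      refine dvd_gcd ?_ ?_
      · rw [hP]
        exact ⟨P', by ring⟩
      · rw [hQ]
        exact ⟨Q', by ring⟩
    obtain ⟨e, he⟩ := h1
    have h2 : D * (d * e) = D * 1 := by
      rw [mul_one, ← mul_assoc]
      exact he.symm
    exact IsUnit.of_mul_eq_one _ (mul_left_cancel₀ hD0 h2)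
  have hmD : mm D = 0 := by
    have h1 : mm G = mm D + mm Q := by
      conv_lhs => rw [hQ]
      exact mm_mul hD0 hQ0
    have h2 := mm_nonneg D
    have h3 := mm_nonneg Q
    linarith
  have hmF : mm F = mm P := by
    conv_lhs => rw [hP]
    rw [mm_mul hD0 hP0, hmD, zero_add]
  have hLL : LL F G = LL P Q := by
    conv_lhs => rw [hP, hQ]
    rw [LL_mul hP0 hD0, hmD]
    ring
  rw [hmF]
  exact ⟨K, P, ⟨hP0, Q, hQ0, hrel, by rw [← hLL]; exact hc⟩, rfl⟩

theorem LL_chain {P Q R : MvPolynomial (Fin K) ℤ} (hP : P ≠ 0) (hQ : Q ≠ 0) :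
    LL P R + 2 * mm Q ≤ LL P Q + LL Q R := by
  rw [LL, LL, LL, mm, ← integral_const_mul, ← integral_add (integrable_LL hP R)
    ((integrable_log_ev hQ).const_mul 2), ← integral_add (integrable_LL hP Q) (integrable_LL hQ R)]
  refine integral_mono_ae ((integrable_LL hP R).add ((integrable_log_ev hQ).const_mul 2))
    ((integrable_LL hP Q).add (integrable_LL hQ R)) ?_
  filter_upwards [ae_ev_ne_zero hP, ae_ev_ne_zero hQ] with t h1 h2
  have h1' : 0 < ‖ev t P‖ := norm_pos_iff.mpr h1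
  have h2' : 0 < ‖ev t Q‖ := norm_pos_iff.mpr h2
  have h3 : 2 * Real.log ‖ev t Q‖ = Real.log (‖ev t Q‖ ^ 2) := by rw [Real.log_pow]; norm_num
  change Real.log (‖ev t P‖ ^ 2 + ‖ev t R‖ ^ 2) + 2 * Real.log ‖ev t Q‖ ≤
    Real.log (‖ev t P‖ ^ 2 + ‖ev t Q‖ ^ 2) + Real.log (‖ev t Q‖ ^ 2 + ‖ev t R‖ ^ 2)
  rw [h3, ← Real.log_mul (by positivity) (by positivity), ← Real.log_mul (by positivity)
    (by positivity)]
  refine Real.log_le_log (by positivity) ?_
  have h4 : 0 ≤ (‖ev t P‖ * ‖ev t R‖) ^ 2 := by positivity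
  have h5 : 0 ≤ (‖ev t Q‖ * ‖ev t Q‖) ^ 2 := by positivity
  nlinarith

theorem LL_self {P : MvPolynomial (Fin K) ℤ} (hP : P ≠ 0) : LL P P = Real.log 2 + 2 * mm P := by
  rw [LL, mm, ← integral_const_mul]
  have h1 : ∫ t : Tor (Fin K), (Real.log 2 + 2 * Real.log ‖ev t P‖) =
      Real.log 2 + ∫ t : Tor (Fin K), 2 * Real.log ‖ev t P‖ := by
    rw [integral_add (integrable_const _) ((integrable_log_ev hP).const_mul 2), integral_const,
      probReal_univ, one_smul]
  rw [← h1]
  refine integral_congr_ae ?_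
  filter_upwards [ae_ev_ne_zero hP] with t h1
  have h1' : 0 < ‖ev t P‖ := norm_pos_iff.mpr h1
  have h3 : 2 * Real.log ‖ev t P‖ = Real.log (‖ev t P‖ ^ 2) := by rw [Real.log_pow]; norm_num
  rw [h3, ← Real.log_mul two_ne_zero (by positivity)]
  congr 1
  ring

/-- the constant of the gap -/
noncomputable def c0 : ℝ := 13 * Real.log 2 + 6

/-- the gap for minimal families -/
theorem exists_gap : ∃ γ : ℝ, 0 < γ ∧ ∀ (K : ℕ) (ι : Type) [Fintype ι] [DecidableEq ι]
    (H : HFam K ι) (W : Finset ι), mm (H.F W) ≠ 0 → (∀ v ∈ W, mm (H.F (W.erase v)) = 0) →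
    γ ≤ mm (H.F W) := by
  obtain ⟨ε, hε, hgap⟩ := gap_SS c0
  refine ⟨min 1 ε, lt_min one_pos hε, fun K ι _ _ H W hW hmin => ?_⟩
  rcases le_or_gt (mm (H.F W)) 1 with h1 | h1
  · obtain ⟨v, hv⟩ : W.Nonempty := by
      by_contra hcon
      rw [Finset.not_nonempty_iff_eq_empty] at hcon
      rw [hcon, H.mm_empty] at hW
      exact hW rfl
    have h2 := H.LL_erase_le hv
    have h3 : mm (H.F W) ∈ SS c0 := mem_SS_of_pair (H.F_ne_zero W) (H.F_ne_zero _) (hmin v hv)
      (by rw [c0]; linarith)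
    rcases hgap _ h3 with h4 | h4
    · exact absurd h4 hW
    · exact (min_le_right _ _).trans h4
  · exact (min_le_left _ _).trans h1.le

/-- the bound for the size of minimal sets -/
noncomputable def nb (γ : ℝ) : ℕ := ⌊1 + (1 + 1 / (Real.cosh (γ / 2) - 1)) ^ 2⌋₊

theorem card_minimal (H : HFam K ι) {γ : ℝ} (hγ : 0 < γ) (W : Finset ι) (hW : γ ≤ mm (H.F W))
    (hmin : ∀ v ∈ W, mm (H.F (W.erase v)) = 0) : W.card ≤ nb γ := by
  classical
  have hae : ∀ᵐ t, ∀ v : {x // x ∈ W}, GG (sub (H.A t) (W.erase v)) = 0 := by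
    refine ae_all_iff.mpr fun v => ?_
    have h1 := hmin v v.2
    rw [H.mm_eq, integral_eq_zero_iff_of_nonneg (fun t => GG_nonneg (sub_herm (H.herm t) _))
      (H.integrable_GG _)] at h1
    exact h1
  obtain ⟨t, ht1, ht2⟩ := exists_notMem_null_integral_le (H.integrable_GG W)
    (ae_iff.mp hae)
  rw [mem_ofPred_eq, not_not] at ht1
  rw [← H.mm_eq] at ht2
  set B := sub (H.A t) W with hBdef
  have hB : B.IsHermitian := sub_herm (H.herm t) W
  have hne : Nonempty {x // x ∈ W} := by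
    by_contra hcon
    rw [not_nonempty_iff] at hcon
    have h1 : GG B = 0 := by
      rw [GG_eq hB]
      exact Finset.sum_eq_zero fun i _ => hcon.elim i
    linarith
  obtain ⟨i0, hi0⟩ := exists_rad hB
  set r := |hB.eigenvalues i0| with hr
  have h1 : γ / 2 ≤ gg r := by
    obtain ⟨v⟩ := hne
    have h2 := GG_le_submatrix (incl_injective (W.erase_subset (v : ι)))
      (card_off (off_erase v.2)).le hB
      (abs_nonneg _) hi0
    have h3 : GG (B.submatrix (incl (W.erase_subset (v : ι))) (incl (W.erase_subset (v : ι)))) = 0 :=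
      ht1 v
    rw [h3] at h2
    linarith
  have h2 : Real.cosh (γ / 2) ≤ max 1 (r / 2) := by
    have h3 := cosh_gg r
    rw [abs_of_nonneg (abs_nonneg _)] at h3
    rw [← h3, Real.cosh_le_cosh, abs_of_pos (by linarith), abs_of_nonneg (gg_nonneg _)]
    exact h1
  have h3 : 1 < Real.cosh (γ / 2) := Real.one_lt_cosh.mpr (by linarith)
  have h4 : Real.cosh (γ / 2) ≤ r / 2 := by
    rcases le_max_iff.mp h2 with h | h
    · linarith
    · exact h
  have hsmall : ∀ v : {x // x ∈ W}, Small B v := by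
    intro v
    refine small_of (off_erase v.2) hB fun k => ?_
    have h5 : GG (sub (H.A t) (W.erase v)) = 0 := ht1 v
    have h6 := gg_le_GG (hB.submatrix (incl (W.erase_subset (v : ι)))) k
    have h7 : GG (B.submatrix (incl (W.erase_subset (v : ι))) (incl (W.erase_subset (v : ι)))) = 0 := h5
    rw [h7] at h6
    by_contra hcon
    push Not at hcon
    have := gg_pos_iff.mpr hcon
    linarith
  have h5 := size_bound hB i0 hi0 (by rw [← hr]; linarith) hsmall
  rw [← hr, Fintype.card_coe] at h5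
  have h6 : r / (r - 2) ≤ 1 + 1 / (Real.cosh (γ / 2) - 1) := by
    have h7 : r / (r - 2) = 1 + 1 / (r / 2 - 1) := by
      have : r - 2 ≠ 0 := by linarith
      have : r / 2 - 1 ≠ 0 := by linarith
      field_simp
      ring
    rw [h7]
    have h8 : 1 / (r / 2 - 1) ≤ 1 / (Real.cosh (γ / 2) - 1) :=
      one_div_le_one_div_of_le (by linarith) (by linarith)
    linarith
  have h7 : 0 ≤ r / (r - 2) := by
    apply div_nonneg (abs_nonneg _)
    linarith
  have h8 : (r / (r - 2)) ^ 2 ≤ (1 + 1 / (Real.cosh (γ / 2) - 1)) ^ 2 := pow_le_pow_left₀ h7 h6 2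
  exact Nat.le_floor (h5.trans (by linarith))

/-- number of neighbours -/
theorem card_neighbours (H : HFam K ι) {X : ℝ} (hX : mm (H.F Finset.univ) ≤ X) (u : ι) :
    ∃ N : Finset ι, N.card ≤ ⌊Real.exp (2 * Real.log 2 + 2 * X)⌋₊ ∧ ∀ v, H.N u v ≠ 0 → v ∈ N := by
  classical
  set S := Finset.univ.filter fun v => H.N u v ≠ 0 with hS
  refine ⟨S, ?_, fun v hv => Finset.mem_filter.mpr ⟨Finset.mem_univ v, hv⟩⟩
  rcases S.eq_empty_or_nonempty with h0 | hne
  · rw [h0]
    simp
  have hcpos : (0:ℝ) < S.card := Nat.cast_pos.mpr hne.card_pos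
  have hSne : ∀ v ∈ S, H.N u v ≠ 0 := fun v hv => (Finset.mem_filter.mp hv).2
  have hae : ∀ᵐ t, ∀ v : {x // x ∈ S}, ev t (H.N u v) ≠ 0 :=
    ae_all_iff.mpr fun v => ae_ev_ne_zero (hSne v v.2)
  have hint : Integrable fun t => ∑ v ∈ S, (1 / (S.card : ℝ)) * Real.log ‖ev t (H.N u v)‖ :=
    integrable_finsetSum S fun v hv => (integrable_log_ev (hSne v hv)).const_mul _
  have h1 : ∫ t, (∑ v ∈ S, (1 / (S.card : ℝ)) * Real.log ‖ev t (H.N u v)‖) ≤
      ∫ t, (2 * Real.log 2 - Real.log S.card + 2 * GG (sub (H.A t) Finset.univ)) := by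
    refine integral_mono_ae hint
      ((integrable_const _).add ((H.integrable_GG _).const_mul 2)) ?_
    filter_upwards [hae] with t ht
    -- concavity
    have hw : ∀ v ∈ S, (0:ℝ) ≤ 1 / (S.card : ℝ) := fun v _ => by positivity
    have hw1 : ∑ v ∈ S, (1 / (S.card : ℝ)) = 1 := by
      rw [Finset.sum_const, nsmul_eq_mul]
      field_simp
    have hmem : ∀ v ∈ S, ‖ev t (H.N u v)‖ ∈ Ioi (0:ℝ) := fun v hv =>
      norm_pos_iff.mpr (ht ⟨v, hv⟩)
    have h2 := strictConcaveOn_log_Ioi.concaveOn.le_map_sum hw hw1 hmem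
    simp only [smul_eq_mul] at h2
    refine h2.trans ?_
    rw [← Finset.mul_sum]
    have hBu := H.herm t
    have : Nonempty ι := ⟨u⟩
    obtain ⟨i0, hi0⟩ := exists_rad hBu
    have h3 : ∑ v ∈ S, ‖ev t (H.N u v)‖ ≤ |hBu.eigenvalues i0| ^ 2 := by
      refine le_trans ?_ (n2_col_le hBu hi0 u)
      have h4 : ∀ v, ‖ev t (H.N u v)‖ = ‖H.A t v u‖ ^ 2 := by
        intro v
        rw [H.hN, ← hBu.apply u v, norm_star]
      simp_rw [h4]
      exact Finset.sum_le_sum_of_subset_of_nonneg (Finset.subset_univ _) fun v _ _ => by positivity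
    have h4 : gg (hBu.eigenvalues i0) ≤ GG (sub (H.A t) Finset.univ) := by
      refine (gg_le_GG hBu i0).trans ?_
      have h5 := GG_submatrix_le (f := fun i : ι => (⟨i, Finset.mem_univ i⟩ : {x // x ∈ Finset.univ}))
        (fun a b hab => congrArg Subtype.val hab) (sub_herm hBu Finset.univ)
      exact h5
    have h5 : |hBu.eigenvalues i0| ^ 2 ≤ Real.exp (2 * Real.log 2 +
        2 * GG (sub (H.A t) Finset.univ)) := by
      have h6 := abs_le_exp_gg (hBu.eigenvalues i0)
      have h7 : |hBu.eigenvalues i0| ≤ Real.exp (Real.log 2 + GG (sub (H.A t) Finset.univ)) := by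
        rw [Real.exp_add, Real.exp_log two_pos]
        refine h6.trans ?_
        have := Real.exp_le_exp.mpr h4
        linarith
      calc |hBu.eigenvalues i0| ^ 2 ≤ Real.exp (Real.log 2 + GG (sub (H.A t) Finset.univ)) ^ 2 :=
            pow_le_pow_left₀ (abs_nonneg _) h7 2
        _ = _ := by
          rw [← Real.exp_nat_mul]
          congr 1
          push_cast
          ring
    have hpos : 0 < ∑ v ∈ S, ‖ev t (H.N u v)‖ := Finset.sum_pos hmem hne
    have h6 : Real.log (1 / (S.card : ℝ) * ∑ v ∈ S, ‖ev t (H.N u v)‖) =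
        Real.log (∑ v ∈ S, ‖ev t (H.N u v)‖) - Real.log S.card := by
      rw [one_div, inv_mul_eq_div, Real.log_div hpos.ne' hcpos.ne']
    rw [h6]
    have h7 : Real.log (∑ v ∈ S, ‖ev t (H.N u v)‖) ≤
        2 * Real.log 2 + 2 * GG (sub (H.A t) Finset.univ) := by
      rw [← Real.log_exp (2 * Real.log 2 + 2 * GG (sub (H.A t) Finset.univ))]
      exact Real.log_le_log hpos (h3.trans h5)
    linarith
  have h2 : 0 ≤ ∫ t, (∑ v ∈ S, (1 / (S.card : ℝ)) * Real.log ‖ev t (H.N u v)‖) := by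
    rw [integral_finsetSum S fun v hv => (integrable_log_ev (hSne v hv)).const_mul _]
    refine Finset.sum_nonneg fun v _ => ?_
    rw [integral_const_mul]
    exact mul_nonneg (by positivity) (mm_nonneg _)
  have h3 : ∫ t, (2 * Real.log 2 - Real.log S.card + 2 * GG (sub (H.A t) Finset.univ)) =
      2 * Real.log 2 - Real.log S.card + 2 * mm (H.F Finset.univ) := by
    rw [integral_add (integrable_const _) ((H.integrable_GG _).const_mul 2), integral_const,
      probReal_univ, one_smul, integral_const_mul, ← H.mm_eq]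
  rw [h3] at h1
  have h4 : Real.log S.card ≤ 2 * Real.log 2 + 2 * X := by linarith
  refine Nat.le_floor ?_
  rw [← Real.exp_log hcpos]
  exact Real.exp_le_exp.mpr h4

theorem LL_compl_le (H : HFam K ι) {X : ℝ} (hX : mm (H.F Finset.univ) ≤ X) (U : Finset ι) :
    LL (H.F Finset.univ) (H.F Uᶜ) ≤ Real.log 2 + 2 * X + U.card * (13 * Real.log 2 + 4 * X) := by
  classical
  induction U using Finset.induction_on with
  | empty =>
    rw [Finset.compl_empty, LL_self (H.F_ne_zero _)]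
    simp only [Finset.card_empty, Nat.cast_zero, zero_mul, add_zero]
    linarith
  | insert v U hv ih =>
    rw [Finset.compl_insert, Finset.card_insert_of_notMem hv]
    have hv' : v ∈ Uᶜ := Finset.mem_compl.mpr hv
    have h1 := LL_chain (R := H.F (Uᶜ.erase v)) (H.F_ne_zero Finset.univ) (H.F_ne_zero Uᶜ)
    have h2 := H.LL_erase_le hv'
    have h3 := (H.mm_mono (Finset.subset_univ Uᶜ)).trans hX
    push_cast
    linarith

/-- main statement for families -/
theorem family_main : ∃ γ : ℝ, 0 < γ ∧ ∀ X : ℝ, ∃ (R : ℕ) (c : ℝ), ∀ (K : ℕ) (ι : Type) [Fintype ι]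
    [DecidableEq ι] (H : HFam K ι), mm (H.F Finset.univ) ≤ X →
    mm (H.F Finset.univ) ∈ SS c ∧ (mm (H.F Finset.univ) = 0 ∨ γ ≤ mm (H.F Finset.univ)) ∧
      ∃ U : Finset ι, U.card ≤ R ∧ mm (H.F Uᶜ) = 0 := by
  classical
  obtain ⟨γ, hγ, hgap⟩ := exists_gap
  refine ⟨γ, hγ, fun X => ?_⟩
  set D := ⌊Real.exp (2 * Real.log 2 + 2 * X)⌋₊ with hD
  set R := ⌊X / γ⌋₊ * (nb γ * (D + 1)) with hR
  refine ⟨R, Real.log 2 + 2 * X + R * (13 * Real.log 2 + 4 * X), fun K ι _ _ H hX => ?_⟩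
  have hX0 : 0 ≤ X := (mm_nonneg _).trans hX
  obtain ⟨U, hU1, hU2⟩ := packing (m := fun W => mm (H.F W)) (r := fun u v => H.N u v ≠ 0)
    (γ := γ) (X := X) (n0 := nb γ) (D := D) H.mm_empty (fun W W' h => H.mm_mono h)
    (fun W W' h1 h2 => H.mm_union h1 fun u hu v hv => not_not.mp (h2 u hu v hv)) hγ
    (fun W h1 h2 => by
      have h3 := hgap K ι H W h1 h2
      exact ⟨card_minimal H hγ W h3 h2, h3⟩)
    (fun u => card_neighbours H hX u) hX
  refine ⟨?_, ?_, U, hU1, hU2⟩
  · refine mem_SS_of_pair (H.F_ne_zero _) (H.F_ne_zero _) hU2 ((LL_compl_le H hX U).trans ?_)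
    have h1 : (U.card : ℝ) ≤ R := by exact_mod_cast hU1
    have h2 : 0 ≤ 13 * Real.log 2 + 4 * X := by
      have := Real.log_pos one_lt_two
      linarith
    have := mul_le_mul_of_nonneg_right h1 h2
    linarith
  · by_cases h : mm (H.F Finset.univ) = 0
    · exact Or.inl h
    · right
      obtain ⟨W, hW, hW1, hW2⟩ := exists_minimal_sub (fun W => mm (H.F W)) _ Finset.univ le_rfl h
      exact (hgap K ι H W hW1 hW2).trans (H.mm_mono (Finset.subset_univ W))

end

end Pool.Agent.HMB
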