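import Mathlib
import Pool.Agent.HMB.B02

/-!
# Laurent polynomials as functions on the torus
-/

open Matrix MeasureTheory Set Pool.Agent.H27Mahler

namespace Pool.Agent.HMB

/-- `f` is given by an integer Laurent polynomial: `f(z) z^e = P(z)` -/
def IsLaurent {k : ℕ} (f : (Fin k → Circle) → ℂ) : Prop :=
  ∃ (e : Fin k → ℕ) (P : MvPolynomial (Fin k) ℤ), ∀ z : Fin k → Circle,
    f z * ∏ j, (z j : ℂ) ^ e j = MvPolynomial.aeval (fun j => (z j : ℂ)) P

variable {k : ℕ}

/-- monomial -/
noncomputable def mo (e : Fin k → ℕ) : MvPolynomial (Fin k) ℤ := ∏ j, MvPolynomial.X j ^ e j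

theorem aeval_mo (e : Fin k → ℕ) (z : Fin k → Circle) :
    MvPolynomial.aeval (fun j => (z j : ℂ)) (mo e) = ∏ j, (z j : ℂ) ^ e j := by
  simp [mo]

theorem isLaurent_const (c : ℤ) : IsLaurent (k := k) fun _ => (c : ℂ) :=
  ⟨0, MvPolynomial.C c, fun z => by simp⟩

theorem IsLaurent.add {f g : (Fin k → Circle) → ℂ} (hf : IsLaurent f) (hg : IsLaurent g) :
    IsLaurent fun z => f z + g z := by
  obtain ⟨e, P, h1⟩ := hf
  obtain ⟨e', Q, h2⟩ := hg
  refine ⟨e + e', P * mo e' + Q * mo e, fun z => ?_⟩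
  rw [map_add, map_mul, map_mul, aeval_mo, aeval_mo, ← h1, ← h2]
  simp only [Pi.add_apply, pow_add, Finset.prod_mul_distrib]
  ring

theorem IsLaurent.mul {f g : (Fin k → Circle) → ℂ} (hf : IsLaurent f) (hg : IsLaurent g) :
    IsLaurent fun z => f z * g z := by
  obtain ⟨e, P, h1⟩ := hf
  obtain ⟨e', Q, h2⟩ := hg
  refine ⟨e + e', P * Q, fun z => ?_⟩
  rw [map_mul, ← h1, ← h2]
  simp only [Pi.add_apply, pow_add, Finset.prod_mul_distrib]
  ring

theorem IsLaurent.neg {f : (Fin k → Circle) → ℂ} (hf : IsLaurent f) : IsLaurent fun z => - f z := by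
  obtain ⟨e, P, h1⟩ := hf
  refine ⟨e, -P, fun z => ?_⟩
  rw [map_neg, ← h1]
  ring

/-- the ring of integer Laurent polynomials, as functions -/
def lring (k : ℕ) : Subring ((Fin k → Circle) → ℂ) where
  carrier := {f | IsLaurent f}
  mul_mem' hf hg := IsLaurent.mul hf hg
  one_mem' := by
    have := isLaurent_const (k := k) 1
    simp only [Int.cast_one] at this
    exact this
  add_mem' hf hg := IsLaurent.add hf hg
  zero_mem' := by
    have := isLaurent_const (k := k) 0
    simp only [Int.cast_zero] at this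
    exact this
  neg_mem' hf := IsLaurent.neg hf

theorem mem_lring {f : (Fin k → Circle) → ℂ} : f ∈ lring k ↔ IsLaurent f := Iff.rfl

theorem isLaurent_tail {f : (Fin k → Circle) → ℂ} (hf : IsLaurent f) :
    IsLaurent fun z : Fin (k + 1) → Circle => f (Fin.tail z) := by
  obtain ⟨e, P, h1⟩ := hf
  refine ⟨Fin.cons 0 e, MvPolynomial.rename Fin.succ P, fun z => ?_⟩
  rw [MvPolynomial.aeval_rename, Fin.prod_univ_succ]
  simp only [Fin.cons_zero, pow_zero, one_mul, Fin.cons_succ]
  exact h1 (Fin.tail z)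

theorem isLaurent_zz : IsLaurent fun z : Fin (k + 1) → Circle => (z 0 : ℂ) + (z 0 : ℂ)⁻¹ := by
  refine ⟨Pi.single 0 1, MvPolynomial.X 0 ^ 2 + 1, fun z => ?_⟩
  have h0 : (z 0 : ℂ) ≠ 0 := Circle.coe_ne_zero _
  rw [Finset.prod_eq_single 0]
  · rw [Pi.single_eq_same, pow_one, map_add, map_pow, MvPolynomial.aeval_X, map_one]
    field_simp
  · intro j _ hj
    rw [Pi.single_eq_of_ne hj, pow_zero]
  · intro h; exact absurd (Finset.mem_univ _) h

theorem IsLaurent.exists_norm {f : (Fin k → Circle) → ℂ} (hf : IsLaurent f) :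
    ∃ P : MvPolynomial (Fin k) ℤ, ∀ z : Fin k → Circle,
      ‖MvPolynomial.aeval (fun j => (z j : ℂ)) P‖ = ‖f z‖ := by
  obtain ⟨e, P, h1⟩ := hf
  refine ⟨P, fun z => ?_⟩
  rw [← h1, norm_mul, norm_prod]
  have : ∀ j, ‖(z j : ℂ) ^ e j‖ = 1 := fun j => by rw [norm_pow, Circle.norm_coe, one_pow]
  simp [this]

theorem ev_eq_aeval (t : Tor (Fin k)) (P : MvPolynomial (Fin k) ℤ) :
    ev t P = MvPolynomial.aeval (fun j => ((AddCircle.toCircle (t j) : Circle) : ℂ)) P := by
  rw [ev, MvPolynomial.coe_eval₂Hom, MvPolynomial.aeval_def, algebraMap_int_eq]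

/-- Hermitian matrix function with integral principal characteristic polynomials -/
def IsIntegral {k n : ℕ} (A : (Fin k → Circle) → Matrix (Fin n) (Fin n) ℂ) : Prop :=
  (∀ z, (A z).IsHermitian) ∧ ∀ (W : Finset (Fin n)) (j : ℕ),
    IsLaurent fun z => ((A z).submatrix (Subtype.val : {x // x ∈ W} → Fin n)
      (Subtype.val : {x // x ∈ W} → Fin n)).charpoly.coeff j

variable {n : ℕ}

theorem isIntegral_of_entries {A : (Fin k → Circle) → Matrix (Fin n) (Fin n) ℂ}
    (hA : ∀ z, (A z).IsHermitian) (hL : ∀ i j, IsLaurent fun z => A z i j) : IsIntegral A := by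
  refine ⟨hA, fun W j => ?_⟩
  set M : Matrix {x // x ∈ W} {x // x ∈ W} (lring k) :=
    Matrix.of fun a b => ⟨fun z => A z a b, hL a b⟩ with hM
  have h1 : (fun z => ((A z).submatrix (Subtype.val : {x // x ∈ W} → Fin n)
      (Subtype.val : {x // x ∈ W} → Fin n)).charpoly.coeff j) =
      ((M.charpoly.coeff j : lring k) : (Fin k → Circle) → ℂ) := by
    funext z
    set φ : lring k →+* ℂ := (Pi.evalRingHom (fun _ : Fin k → Circle => ℂ) z).comp
      (lring k).subtype with hφ
    have h2 : M.map φ = (A z).submatrix (Subtype.val : {x // x ∈ W} → Fin n)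
        (Subtype.val : {x // x ∈ W} → Fin n) := by
      ext a b
      rfl
    rw [← h2, Matrix.charpoly_map, Polynomial.coeff_map]
    rfl
  rw [h1]
  exact (M.charpoly.coeff j).2

theorem isLaurent_det {A : (Fin k → Circle) → Matrix (Fin n) (Fin n) ℂ} (hA : IsIntegral A)
    (W : Finset (Fin n)) : IsLaurent fun z => ((A z).submatrix (Subtype.val : {x // x ∈ W} → Fin n)
      (Subtype.val : {x // x ∈ W} → Fin n)).det := by
  have h1 := (isLaurent_const (k := k) ((-1) ^ W.card)).mul (hA.2 W 0)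
  have h2 : (fun z => ((A z).submatrix (Subtype.val : {x // x ∈ W} → Fin n)
      (Subtype.val : {x // x ∈ W} → Fin n)).det) = fun z => (((-1) ^ W.card : ℤ) : ℂ) *
      ((A z).submatrix (Subtype.val : {x // x ∈ W} → Fin n)
      (Subtype.val : {x // x ∈ W} → Fin n)).charpoly.coeff 0 := by
    funext z
    rw [Matrix.det_eq_sign_charpoly_coeff, Fintype.card_coe]
    push_cast
    rfl
  rw [h2]
  exact h1

theorem isLaurent_diag {A : (Fin k → Circle) → Matrix (Fin n) (Fin n) ℂ} (hA : IsIntegral A)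
    (u : Fin n) : IsLaurent fun z => A z u u := by
  have h1 := isLaurent_det hA {u}
  have h2 : (fun z => A z u u) = fun z => ((A z).submatrix
      (Subtype.val : {x // x ∈ ({u} : Finset (Fin n))} → Fin n)
      (Subtype.val : {x // x ∈ ({u} : Finset (Fin n))} → Fin n)).det := by
    funext z
    have hu : Unique {x // x ∈ ({u} : Finset (Fin n))} :=
      { default := ⟨u, Finset.mem_singleton_self u⟩
        uniq := fun a => Subtype.ext (Finset.mem_singleton.mp a.2) }
    rw [Matrix.det_unique]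
    have h3 : ((default : {x // x ∈ ({u} : Finset (Fin n))}) : Fin n) = u :=
      Finset.mem_singleton.mp (default : {x // x ∈ ({u} : Finset (Fin n))}).2
    rw [submatrix_apply, h3]
  rw [h2]
  exact h1

theorem isLaurent_normSq {A : (Fin k → Circle) → Matrix (Fin n) (Fin n) ℂ} (hA : IsIntegral A)
    (u v : Fin n) : IsLaurent fun z => ((‖A z u v‖ ^ 2 : ℝ) : ℂ) := by
  have hns : ∀ z, ((‖A z u v‖ ^ 2 : ℝ) : ℂ) = A z u v * A z v u := by
    intro z
    have h1 : A z v u = (starRingEnd ℂ) (A z u v) := ((hA.1 z).apply v u).symm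
    rw [h1, Complex.mul_conj, Complex.normSq_eq_norm_sq]
  by_cases huv : u = v
  · subst huv
    have h1 := (isLaurent_diag hA u).mul (isLaurent_diag hA u)
    have h2 : (fun z => ((‖A z u u‖ ^ 2 : ℝ) : ℂ)) = fun z => A z u u * A z u u := by
      funext z
      exact hns z
    rw [h2]
    exact h1
  · have h1 := ((isLaurent_diag hA u).mul (isLaurent_diag hA v)).add (isLaurent_det hA {u, v}).neg
    have h2 : (fun z => ((‖A z u v‖ ^ 2 : ℝ) : ℂ)) = fun z => A z u u * A z v v +
        -((A z).submatrix (Subtype.val : {x // x ∈ ({u, v} : Finset (Fin n))} → Fin n)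
      (Subtype.val : {x // x ∈ ({u, v} : Finset (Fin n))} → Fin n)).det := by
      funext z
      rw [hns]
      have hmu : u ∈ ({u, v} : Finset (Fin n)) := by simp
      have hmv : v ∈ ({u, v} : Finset (Fin n)) := by simp
      let e : Fin 2 ≃ {x // x ∈ ({u, v} : Finset (Fin n))} :=
        Equiv.ofBijective ![⟨u, hmu⟩, ⟨v, hmv⟩] (by
          constructor
          · intro a b hab
            fin_cases a <;> fin_cases b
            · rfl
            · exact absurd (congrArg Subtype.val hab) huv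
            · exact absurd (congrArg Subtype.val hab) (Ne.symm huv)
            · rfl
          · rintro ⟨x, hx⟩
            rcases Finset.mem_insert.mp hx with h | h
            · exact ⟨0, Subtype.ext h.symm⟩
            · exact ⟨1, Subtype.ext (Finset.mem_singleton.mp h).symm⟩)
      rw [← Matrix.det_submatrix_equiv_self e, Matrix.det_fin_two]
      have e0 : ((e 0 : {x // x ∈ ({u, v} : Finset (Fin n))}) : Fin n) = u := rfl
      have e1 : ((e 1 : {x // x ∈ ({u, v} : Finset (Fin n))}) : Fin n) = v := rfl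
      simp only [submatrix_apply, e0, e1]
      ring
    rw [h2]
    exact h1

/-- the point of the torus without the first coordinate -/
noncomputable def tl (t : Tor (Fin (k + 1))) : Fin k → Circle :=
  fun j => AddCircle.toCircle (t j.succ)

theorem exists_poly {A : (Fin k → Circle) → Matrix (Fin n) (Fin n) ℂ} (hA : IsIntegral A)
    (W : Finset (Fin n)) : ∃ F : MvPolynomial (Fin (k + 1)) ℤ, ∀ t : Tor (Fin (k + 1)),
      ‖ev t F‖ = ‖(cs (t 0) • (1 : Matrix {x // x ∈ W} {x // x ∈ W} ℂ) - sub (A (tl t)) W).det‖ := by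
  set c : ℕ → (Fin (k + 1) → Circle) → ℂ := fun j z => ((A (Fin.tail z)).submatrix
    (Subtype.val : {x // x ∈ W} → Fin n) (Subtype.val : {x // x ∈ W} → Fin n)).charpoly.coeff j
    with hc
  have hcL : ∀ j, c j ∈ lring (k + 1) := fun j => isLaurent_tail (hA.2 W j)
  set x : (Fin (k + 1) → Circle) → ℂ := fun z => (z 0 : ℂ) + (z 0 : ℂ)⁻¹ with hx
  have hxL : x ∈ lring (k + 1) := isLaurent_zz
  have hG : ∑ j ∈ Finset.range (W.card + 1), c j * x ^ j ∈ lring (k + 1) :=
    Subring.sum_mem _ fun j _ => Subring.mul_mem _ (hcL j) (Subring.pow_mem _ hxL j)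
  obtain ⟨P, hP⟩ := IsLaurent.exists_norm hG
  refine ⟨P, fun t => ?_⟩
  rw [ev_eq_aeval, hP]
  congr 1
  set z : Fin (k + 1) → Circle := fun j => AddCircle.toCircle (t j) with hz
  have htl : Fin.tail z = tl t := rfl
  have h1 := (sub (A (tl t)) W).eval_charpoly (cs (t 0))
  have h2 : (Matrix.scalar {x // x ∈ W} (cs (t 0))) =
      cs (t 0) • (1 : Matrix {x // x ∈ W} {x // x ∈ W} ℂ) := by
    rw [Matrix.scalar_apply, Matrix.smul_one_eq_diagonal]
  rw [h2] at h1
  rw [← h1, Polynomial.eval_eq_sum_range, Matrix.charpoly_natDegree_eq_dim, Fintype.card_coe,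
    Finset.sum_apply]
  rfl

/-- the family of an integral Hermitian matrix function -/
noncomputable def toFam {A : (Fin k → Circle) → Matrix (Fin n) (Fin n) ℂ} (hA : IsIntegral A) :
    HFam (k + 1) (Fin n) where
  w := 0
  A t := A (tl t)
  herm t := hA.1 _
  indep t τ := by
    congr 1
    funext j
    change AddCircle.toCircle (shear (Pi.single 0 1) (t, τ) j.succ) = AddCircle.toCircle (t j.succ)
    rw [shear_apply, Pi.single_eq_of_ne (Fin.succ_ne_zero j), zero_smul, add_zero]
  F W := (exists_poly hA W).choose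
  hF W t := (exists_poly hA W).choose_spec t
  N u v := MvPolynomial.rename Fin.succ (isLaurent_normSq hA u v).exists_norm.choose
  hN u v t := by
    rw [ev_eq_aeval, MvPolynomial.aeval_rename]
    have h := (isLaurent_normSq hA u v).exists_norm.choose_spec (tl t)
    rw [Complex.norm_real, Real.norm_eq_abs, abs_of_nonneg (by positivity)] at h
    exact h

end Pool.Agent.HMB
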