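import Mathlib
import Pool.Agent.NRG.G12Vars
import Pool.Agent.HMB.B03
import Pool.Agent.HMB.C01

/-!
# Consequences for integral Hermitian matrix functions
-/

open Matrix MeasureTheory Set Pool.Agent.H27Mahler Pool.Agent.NRG Filter Topology

namespace Pool.Agent.HMB

section

variable {k n : ℕ}

/-- logarithmic measure -/
noncomputable def mA {A : (Fin k → Circle) → Matrix (Fin n) (Fin n) ℂ} (hA : IsIntegral A) : ℝ :=
  mm ((toFam hA).F Finset.univ)

theorem det_univ (B : Matrix (Fin n) (Fin n) ℂ) (c : ℂ) :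
    (c • (1 : Matrix {x // x ∈ (Finset.univ : Finset (Fin n))}
      {x // x ∈ (Finset.univ : Finset (Fin n))} ℂ) - sub B Finset.univ).det =
      (c • (1 : Matrix (Fin n) (Fin n) ℂ) - B).det := by
  set e : Fin n ≃ {x // x ∈ (Finset.univ : Finset (Fin n))} :=
    { toFun := fun i => ⟨i, Finset.mem_univ i⟩
      invFun := fun i => i
      left_inv := fun _ => rfl
      right_inv := fun _ => rfl } with he
  rw [← Matrix.det_submatrix_equiv_self e]
  congr 1
  ext i j
  simp only [submatrix_apply, Matrix.sub_apply, Matrix.smul_apply, Matrix.one_apply, sub, he,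
    Equiv.coe_fn_mk, Subtype.mk.injEq]

/-- the measure as an integral over the cube -/
theorem integral_eq_mA {A : (Fin k → Circle) → Matrix (Fin n) (Fin n) ℂ} (hA : IsIntegral A) :
    ∫ t in Set.Icc (0 : Fin (k + 1) → ℝ) 1, Real.log ‖(((2 * Real.cos (2 * Real.pi * t 0) : ℝ) : ℂ) •
      (1 : Matrix (Fin n) (Fin n) ℂ) -
      A (fun j => Circle.exp (2 * Real.pi * t j.succ))).det‖ = mA hA := by
  rw [mA, ← integral_cube_eq_mm]
  congr 1
  funext t
  have h4 : ∀ F : MvPolynomial (Fin (k + 1)) ℤ, MvPolynomial.eval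
      (fun j => Complex.exp (2 * Real.pi * Complex.I * (t j : ℂ)))
      (MvPolynomial.map (Int.castRingHom ℂ) F) = ev (fun i => ((t i : ℝ) : UnitAddCircle)) F := by
    intro F
    rw [MvPolynomial.eval_map, ev, MvPolynomial.coe_eval₂Hom]
    congr 1
    funext j
    rw [AddCircle.toCircle_apply_mk, Circle.coe_exp]
    congr 1
    push_cast
    ring
  rw [h4, (toFam hA).hF, det_univ]
  have h5 : cs (((t 0 : ℝ) : UnitAddCircle)) = ((2 * Real.cos (2 * Real.pi * t 0) : ℝ) : ℂ) := by
    rw [cs, AddCircle.toCircle_apply_mk, Circle.coe_exp, ← Complex.exp_neg]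
    push_cast
    rw [Complex.cos, mul_div_cancel₀ _ two_ne_zero]
    congr 1
    · congr 1
      ring
    · congr 1
      ring
  have h6 : tl (fun i => ((t i : ℝ) : UnitAddCircle)) =
      fun j : Fin k => Circle.exp (2 * Real.pi * t j.succ) := by
    funext j
    rw [tl, AddCircle.toCircle_apply_mk]
    congr 1
    ring
  change _ = Real.log ‖(cs (((t 0 : ℝ) : UnitAddCircle)) • (1 : Matrix (Fin n) (Fin n) ℂ) -
    A (tl fun i => ((t i : ℝ) : UnitAddCircle))).det‖
  rw [h5, h6]

theorem IsLaurent.continuous {f : (Fin k → Circle) → ℂ} (hf : IsLaurent f) : Continuous f := by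
  obtain ⟨e, P, h⟩ := hf
  have h0 : ∀ z : Fin k → Circle, ∏ j, (z j : ℂ) ^ e j ≠ 0 := fun z =>
    Finset.prod_ne_zero_iff.mpr fun j _ => pow_ne_zero _ (Circle.coe_ne_zero _)
  have h1 : f = fun z => (MvPolynomial.aeval (fun j => (z j : ℂ)) P) * (∏ j, (z j : ℂ) ^ e j)⁻¹ := by
    funext z
    rw [← h z, mul_assoc, mul_inv_cancel₀ (h0 z), mul_one]
  rw [h1]
  have h2 : Continuous fun z : Fin k → Circle => MvPolynomial.aeval (fun j => (z j : ℂ)) P := by
    simp only [MvPolynomial.aeval_def, MvPolynomial.eval₂_eq']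
    fun_prop
  have h3 : Continuous fun z : Fin k → Circle => ∏ j, (z j : ℂ) ^ e j := by fun_prop
  exact h2.mul (h3.inv₀ h0)

theorem tl_surjective : Function.Surjective (tl : Tor (Fin (k + 1)) → Fin k → Circle) := by
  intro z
  refine ⟨Fin.cons 0 fun j => (AddCircle.homeomorphCircle (one_ne_zero)).symm (z j), ?_⟩
  funext j
  rw [tl, Fin.cons_succ, ← AddCircle.homeomorphCircle_apply one_ne_zero, Homeomorph.apply_symm_apply]

theorem continuous_tl : Continuous (tl : Tor (Fin (k + 1)) → Fin k → Circle) := by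
  refine continuous_pi fun j => ?_
  exact AddCircle.continuous_toCircle.comp (continuous_apply _)

/-- a submatrix of measure one has all its eigenvalues in `[-2, 2]`, at every point -/
theorem spectrum_of_mm_zero {A : (Fin k → Circle) → Matrix (Fin n) (Fin n) ℂ} (hA : IsIntegral A)
    (W : Finset (Fin n)) (h0 : mm ((toFam hA).F W) = 0) (z : Fin k → Circle) :
    ∀ x ∈ spectrum ℝ ((A z).submatrix (Subtype.val : {x // x ∈ W} → Fin n)
      (Subtype.val : {x // x ∈ W} → Fin n)), |x| ≤ 2 := by
  set H := toFam hA with hH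
  have hae : ∀ᵐ t, GG (sub (H.A t) W) = 0 := by
    rw [H.mm_eq, integral_eq_zero_iff_of_nonneg (fun t => GG_nonneg (sub_herm (H.herm t) _))
      (H.integrable_GG _)] at h0
    exact h0
  have key : ∀ (x : ℝ), 2 < |x| → ∀ z : Fin k → Circle,
      (|x| - 2) ^ W.card ≤ ‖(sub (A z) W).charpoly.eval (x : ℂ)‖ := by
    intro x hx z
    have hcont : Continuous fun z : Fin k → Circle => ‖(sub (A z) W).charpoly.eval (x : ℂ)‖ := by
      have h1 : (fun z : Fin k → Circle => (sub (A z) W).charpoly.eval (x : ℂ)) = fun z =>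
          ∑ j ∈ Finset.range (W.card + 1), (sub (A z) W).charpoly.coeff j * (x : ℂ) ^ j := by
        funext z
        rw [Polynomial.eval_eq_sum_range, Matrix.charpoly_natDegree_eq_dim, Fintype.card_coe]
      have h2 : Continuous fun z : Fin k → Circle => (sub (A z) W).charpoly.eval (x : ℂ) := by
        rw [h1]
        refine continuous_finsetSum _ fun j _ => ?_
        exact (IsLaurent.continuous (hA.2 W j)).mul continuous_const
      exact h2.norm
    have hclosed : IsClosed {t : Tor (Fin (k + 1)) | (|x| - 2) ^ W.card ≤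
        ‖(sub (A (tl t)) W).charpoly.eval (x : ℂ)‖} :=
      isClosed_le continuous_const (hcont.comp continuous_tl)
    have hdense : Dense {t : Tor (Fin (k + 1)) | GG (sub (H.A t) W) = 0} :=
      Measure.dense_of_ae hae
    have hsub : {t : Tor (Fin (k + 1)) | GG (sub (H.A t) W) = 0} ⊆
        {t : Tor (Fin (k + 1)) | (|x| - 2) ^ W.card ≤
        ‖(sub (A (tl t)) W).charpoly.eval (x : ℂ)‖} := by
      intro t ht
      have hB : (sub (A (tl t)) W).IsHermitian := sub_herm (hA.1 _) W
      have h1 : ∀ i, |hB.eigenvalues i| ≤ 2 := by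
        intro i
        by_contra hcon
        push Not at hcon
        have h2 := gg_pos_iff.mpr hcon
        have h3 := gg_le_GG hB i
        have h4 : GG (sub (A (tl t)) W) = 0 := ht
        linarith
      change (|x| - 2) ^ W.card ≤ ‖(sub (A (tl t)) W).charpoly.eval (x : ℂ)‖
      rw [hB.charpoly_eq, Polynomial.eval_prod, norm_prod]
      have h2 : (|x| - 2) ^ W.card = ∏ i : {x // x ∈ W}, (|x| - 2) := by
        rw [Finset.prod_const, Finset.card_univ, Fintype.card_coe]
      rw [h2]
      refine Finset.prod_le_prod (fun i _ => by linarith) fun i _ => ?_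
      rw [Polynomial.eval_sub, Polynomial.eval_X, Polynomial.eval_C]
      have h3 : ‖(x : ℂ) - (hB.eigenvalues i : ℂ)‖ = |x - hB.eigenvalues i| := by
        rw [← Complex.ofReal_sub, Complex.norm_real, Real.norm_eq_abs]
      change |x| - 2 ≤ ‖(x : ℂ) - (hB.eigenvalues i : ℂ)‖
      rw [h3]
      have h4 := abs_sub_abs_le_abs_sub x (hB.eigenvalues i)
      have h5 := h1 i
      linarith
    obtain ⟨t, rfl⟩ := tl_surjective z
    have h1 := hclosed.closure_subset_iff.mpr hsub
    exact h1 (hdense t)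
  intro x hx
  by_contra hcon
  push Not at hcon
  have hB : (sub (A z) W).IsHermitian := sub_herm (hA.1 _) W
  have h1 : x ∈ Set.range hB.eigenvalues := by
    rw [← hB.spectrum_real_eq_range_eigenvalues]
    exact hx
  obtain ⟨i, rfl⟩ := h1
  have h2 := key _ hcon z
  rw [hB.charpoly_eq, Polynomial.eval_prod, Finset.prod_eq_zero (Finset.mem_univ i) (by simp),
    norm_zero] at h2
  have h3 : 0 < (|hB.eigenvalues i| - 2) ^ W.card := pow_pos (by linarith) _
  linarith

end

end Pool.Agent.HMB
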