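import Mathlib
import Pool.Agent.H27Mahler.Final
import Pool.Agent.HMB.C01
import Pool.Agent.HMB.A07

/-!
# Interlaced polynomials
-/

open Matrix MeasureTheory Set Pool.Agent.H27Mahler Filter Topology

namespace Pool.Agent.HMB

section

variable {k : ℕ}

/-! ### interlaced polynomials -/

/-- `P`, `Q` are real-rooted and interlacing in `z₀ + 1/z₀` with mass at most `B` -/
def Interlaced (B : ℝ) (P Q : MvPolynomial (Fin (k + 1)) ℤ) : Prop :=
  ∀ z : Fin k → Circle, ∃ (n : ℕ) (lam c : Fin n → ℝ), (∀ i, 0 ≤ c i) ∧ ∑ i, c i ≤ B ∧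
    ∀ w : Circle,
      ‖MvPolynomial.aeval (fun j => ((Fin.cons w z : Fin (k + 1) → Circle) j : ℂ)) P‖ =
        |∏ i, (2 * (w : ℂ).re - lam i)| ∧
      ‖MvPolynomial.aeval (fun j => ((Fin.cons w z : Fin (k + 1) → Circle) j : ℂ)) Q‖ =
        |∑ i, c i * ∏ j ∈ Finset.univ.erase i, (2 * (w : ℂ).re - lam j)|

theorem cs_eq (τ : UnitAddCircle) : cs τ = ((2 * (AddCircle.toCircle τ : ℂ).re : ℝ) : ℂ) := by
  have h1 : (AddCircle.toCircle τ : ℂ)⁻¹ = (starRingEnd ℂ) (AddCircle.toCircle τ : ℂ) := by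
    rw [← Circle.coe_inv, Circle.coe_inv_eq_conj]
  rw [cs, h1, Complex.add_conj]

theorem LL_interlaced {B : ℝ} {P Q : MvPolynomial (Fin (k + 1)) ℤ} (hP : P ≠ 0)
    (h : Interlaced B P Q) :
    LL P Q ≤ 5 * Real.log 2 + 4 * Real.log (2 + 2 * B) + 6 * mm P := by
  have hpt : ∀ t : Tor (Fin (k + 1)), ∃ (n : ℕ) (lam c : Fin n → ℝ), (∀ i, 0 ≤ c i) ∧
      ∑ i, c i ≤ B ∧ ∀ τ : UnitAddCircle,
        ‖ev (shear (Pi.single 0 1) (t, τ)) P‖ = ‖tp lam (cs (t 0 + τ))‖ ∧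
        ‖ev (shear (Pi.single 0 1) (t, τ)) Q‖ = ‖np lam c (cs (t 0 + τ))‖ := by
    intro t
    obtain ⟨n, lam, c, hc, hcs, hw⟩ := h (tl t)
    refine ⟨n, lam, c, hc, hcs, fun τ => ?_⟩
    have h1 := hw (AddCircle.toCircle (t 0 + τ))
    have h2 : (fun j => (((Fin.cons (AddCircle.toCircle (t 0 + τ)) (tl t) : Fin (k + 1) → Circle) j :
        Circle) : ℂ)) = fun j => ((AddCircle.toCircle (shear (Pi.single 0 1) (t, τ) j) : Circle) : ℂ) := by
      funext j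
      refine Fin.cases ?_ (fun i => ?_) j
      · rw [Fin.cons_zero, shear_apply, Pi.single_eq_same, one_smul]
      · rw [Fin.cons_succ, shear_apply, Pi.single_eq_of_ne (Fin.succ_ne_zero i), zero_smul,
          add_zero]
        rfl
    rw [h2, ← ev_eq_aeval, ← ev_eq_aeval] at h1
    constructor
    · rw [h1.1, tp, cs_eq]
      have h3 : (∏ i, ((((2 * ((AddCircle.toCircle (t 0 + τ) : Circle) : ℂ).re : ℝ) : ℂ)) -
          (lam i : ℂ))) = ((∏ i, (2 * ((AddCircle.toCircle (t 0 + τ) : Circle) : ℂ).re - lam i) : ℝ) : ℂ) := by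
        push_cast
        rfl
      rw [h3, Complex.norm_real, Real.norm_eq_abs]
    · rw [h1.2, np, cs_eq]
      have h3 : (∑ i, (c i : ℂ) * ∏ j ∈ Finset.univ.erase i,
          ((((2 * ((AddCircle.toCircle (t 0 + τ) : Circle) : ℂ).re : ℝ) : ℂ)) - (lam j : ℂ))) =
          ((∑ i, c i * ∏ j ∈ Finset.univ.erase i,
            (2 * ((AddCircle.toCircle (t 0 + τ) : Circle) : ℂ).re - lam j) : ℝ) : ℂ) := by
        push_cast
        rfl
      rw [h3, Complex.norm_real, Real.norm_eq_abs]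
  have hi1 := integrable_shear_left (Pi.single 0 1) _ (integrable_log_ev hP)
  have hi2 := integrable_shear_left (Pi.single 0 1) _ (integrable_LL hP Q)
  rw [LL, mm, integral_eq_shear (Pi.single 0 1) _ (integrable_LL hP Q),
    integral_eq_shear (Pi.single 0 1) _ (integrable_log_ev hP)]
  have h1 : 5 * Real.log 2 + 4 * Real.log (2 + 2 * B) +
      6 * ∫ t : Tor (Fin (k + 1)), ∫ τ, Real.log ‖ev (shear (Pi.single 0 1) (t, τ)) P‖ =
      ∫ t : Tor (Fin (k + 1)), (5 * Real.log 2 + 4 * Real.log (2 + 2 * B) +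
        6 * ∫ τ, Real.log ‖ev (shear (Pi.single 0 1) (t, τ)) P‖) := by
    rw [integral_add (integrable_const _) (hi1.const_mul 6), integral_const, probReal_univ, one_smul,
      integral_const_mul]
  rw [h1]
  refine integral_mono hi2 ((integrable_const _).add (hi1.const_mul 6)) fun t => ?_
  obtain ⟨n, lam, c, hc, hcs, hτ⟩ := hpt t
  have h2 := pair_interlaced' lam c hc hcs
  have e1 : ∫ τ, Real.log (‖ev (shear (Pi.single 0 1) (t, τ)) P‖ ^ 2 +
      ‖ev (shear (Pi.single 0 1) (t, τ)) Q‖ ^ 2) =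
      ∫ τ, Real.log (‖tp lam (cs τ)‖ ^ 2 + ‖np lam c (cs τ)‖ ^ 2) := by
    simp_rw [(hτ _).1, (hτ _).2]
    exact integral_add_left_eq_self (fun τ : UnitAddCircle =>
      Real.log (‖tp lam (cs τ)‖ ^ 2 + ‖np lam c (cs τ)‖ ^ 2)) (t 0)
  have e2 : ∫ τ, Real.log ‖ev (shear (Pi.single 0 1) (t, τ)) P‖ = ∫ τ, Real.log ‖tp lam (cs τ)‖ := by
    simp_rw [(hτ _).1]
    exact integral_add_left_eq_self (fun τ : UnitAddCircle => Real.log ‖tp lam (cs τ)‖) (t 0)
  change ∫ τ, Real.log (‖ev (shear (Pi.single 0 1) (t, τ)) P‖ ^ 2 +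
      ‖ev (shear (Pi.single 0 1) (t, τ)) Q‖ ^ 2) ≤ 5 * Real.log 2 + 4 * Real.log (2 + 2 * B) +
        6 * ∫ τ, Real.log ‖ev (shear (Pi.single 0 1) (t, τ)) P‖
  rw [e1, e2]
  exact h2

end

end Pool.Agent.HMB
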